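import Mathlib

/-!
Additive functions: few large prime factors, and the reciprocals of the primes between `y` and `y^K`.
-/

set_option autoImplicit false

namespace Pool.Agent.K7.H69.EK

open Finset

/-- the strongly additive function with the values `f p` -/
noncomputable def add (f : ℕ → ℝ) (n : ℤ) : ℝ := ∑ p ∈ n.natAbs.primeFactors, f p

/-- its mean -/
noncomputable def Am (f : ℕ → ℝ) (N : ℕ) : ℝ := ∑ p ∈ (Icc 1 N).filter Nat.Prime, f p / p

/-- its variance -/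
noncomputable def Vm (f : ℕ → ℝ) (N : ℕ) : ℝ := ∑ p ∈ (Icc 1 N).filter Nat.Prime, f p ^ 2 / p

/-- the normalising constant -/
noncomputable def Bm (f : ℕ → ℝ) (N : ℕ) : ℝ := √(Vm f N)

lemma Vm_nonneg (f : ℕ → ℝ) (N : ℕ) : 0 ≤ Vm f N := sum_nonneg fun p _ => by positivity

lemma Bm_sq (f : ℕ → ℝ) (N : ℕ) : Bm f N ^ 2 = Vm f N := Real.sq_sqrt (Vm_nonneg f N)

lemma Bm_nonneg (f : ℕ → ℝ) (N : ℕ) : 0 ≤ Bm f N := Real.sqrt_nonneg _

theorem card_large {n K y : ℕ} (hn : n ≠ 0) (hy : 1 ≤ y) (h : n ≤ (y + 1) ^ K) :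
    (n.primeFactors.filter (fun p => y < p)).card ≤ K := by
  have h1 : (y + 1) ^ (n.primeFactors.filter (fun p => y < p)).card ≤
      ∏ p ∈ n.primeFactors.filter (fun p => y < p), p := by
    rw [← prod_const]
    exact prod_le_prod' fun p hp => (mem_filter.1 hp).2
  have h2 : ∏ p ∈ n.primeFactors.filter (fun p => y < p), p ≤ n :=
    (Nat.le_of_dvd (Nat.pos_of_ne_zero hn) ((prod_dvd_prod_of_subset _ _ _ (filter_subset _ _)).trans
      (Nat.prod_primeFactors_dvd n)))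
  exact (Nat.pow_le_pow_iff_right (by omega)).1 ((h1.trans h2).trans h)

/-- the reciprocals of the primes in `(y, N]` -/
theorem sum_large {N K y : ℕ} (hy : 1 ≤ y) (h : N ≤ (y + 1) ^ K) :
    ∑ p ∈ ((Icc 1 N).filter Nat.Prime).filter (fun p => y < p), (1 : ℝ) / p ≤ 2 * K := by
  classical
  rcases Nat.eq_zero_or_pos N with hN | hN
  · subst hN
    simp
  · have hN0 : (0 : ℝ) < N := by exact_mod_cast hN
    set Q := ((Icc 1 N).filter Nat.Prime).filter (fun p => y < p) with hQ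
    have h1 : ∑ p ∈ Q, (N / p) ≤ K * N := by
      have h2 : ∀ p ∈ Q, N / p = ∑ n ∈ Icc 1 N, if p ∣ n then 1 else 0 := by
        intro p _
        rw [← card_filter, ← Nat.Ioc_filter_dvd_card_eq_div]
        rfl
      rw [sum_congr rfl h2, sum_comm]
      have h3 : ∀ n ∈ Icc 1 N, ∑ p ∈ Q, (if p ∣ n then 1 else 0) ≤ K := by
        intro n hn
        rw [mem_Icc] at hn
        rw [← card_filter]
        refine le_trans (card_le_card ?_) (card_large (n := n) (by omega) hy (hn.2.trans h))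
        intro p hp
        rw [mem_filter, hQ, mem_filter, mem_filter] at hp
        rw [mem_filter, Nat.mem_primeFactors]
        exact ⟨⟨hp.1.1.2, hp.2, by omega⟩, hp.1.2⟩
      refine (sum_le_sum h3).trans ?_
      rw [sum_const, Nat.card_Icc, smul_eq_mul, Nat.add_sub_cancel, mul_comm]
    have h2 : ∀ p ∈ Q, (1 : ℝ) / p ≤ 2 / N * ((N / p : ℕ) : ℝ) := by
      intro p hp
      rw [hQ, mem_filter, mem_filter, mem_Icc] at hp
      have hp1 : 1 ≤ p := hp.1.1.1
      have hp0 : (0 : ℝ) < p := by exact_mod_cast hp1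
      have h3 : N < p * (N / p + 1) := Nat.lt_mul_div_succ N (by omega)
      have h4 : 1 ≤ N / p := (Nat.one_le_div_iff (by omega)).2 hp.1.1.2
      have h5 : (N : ℝ) ≤ p * (2 * ((N / p : ℕ) : ℝ)) := by
        have h6 : N ≤ p * (2 * (N / p)) := by nlinarith
        exact_mod_cast h6
      rw [div_le_iff₀ hp0, div_mul_eq_mul_div, div_mul_eq_mul_div, le_div_iff₀ hN0]
      linarith
    refine (sum_le_sum h2).trans ?_
    rw [← mul_sum]
    have h3 : ∑ p ∈ Q, ((N / p : ℕ) : ℝ) ≤ K * N := by exact_mod_cast h1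
    calc 2 / (N : ℝ) * ∑ p ∈ Q, ((N / p : ℕ) : ℝ) ≤ 2 / (N : ℝ) * (K * N) :=
          mul_le_mul_of_nonneg_left h3 (by positivity)
      _ = 2 * K := by field_simp

/-- a root -/
theorem exists_root {k : ℕ} (hk : 1 ≤ k) (H : ℕ) : ∃ y : ℕ, y ^ k ≤ H ∧ H < (y + 1) ^ k := by
  classical
  have h0 : (0 : ℕ) ^ k ≤ H := by rw [zero_pow (by omega)]; exact Nat.zero_le _
  refine ⟨Nat.findGreatest (fun y => y ^ k ≤ H) H, Nat.findGreatest_spec (P := fun y => y ^ k ≤ H)
    (Nat.zero_le H) h0, ?_⟩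
  by_contra hcon
  push Not at hcon
  have h1 : Nat.findGreatest (fun y => y ^ k ≤ H) H + 1 ≤ H :=
    (Nat.le_self_pow (by omega) _).trans hcon
  have h2 := Nat.le_findGreatest (P := fun y => y ^ k ≤ H) h1 hcon
  omega

/-- the truncation of an additive function -/
theorem trunc_add {f : ℕ → ℝ} (hf : ∀ p, |f p| ≤ 1) {n : ℤ} (hn : n ≠ 0) {K y h₀ : ℕ} (hy : 1 ≤ y)
    (h : n.natAbs ≤ (y + 1) ^ K) :
    |add f n - ∑ p ∈ (Ioc h₀ y).filter Nat.Prime, (if (p : ℤ) ∣ n then f p else 0)| ≤ h₀ + K := by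
  classical
  have hn' : n.natAbs ≠ 0 := by omega
  have e1 : ∑ p ∈ (Ioc h₀ y).filter Nat.Prime, (if (p : ℤ) ∣ n then f p else 0) =
      ∑ p ∈ n.natAbs.primeFactors.filter (fun p => h₀ < p ∧ p ≤ y), f p := by
    rw [← sum_filter]
    refine sum_congr ?_ fun _ _ => rfl
    ext p
    rw [mem_filter, mem_filter, mem_filter, mem_Ioc, Nat.mem_primeFactors, Int.natCast_dvd]
    tauto
  rw [e1]
  unfold add
  rw [← sum_filter_add_sum_filter_not n.natAbs.primeFactors (fun p => h₀ < p ∧ p ≤ y),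
    add_sub_cancel_left]
  refine (abs_sum_le_sum_abs _ _).trans ?_
  refine (sum_le_sum fun p _ => hf p).trans ?_
  rw [sum_const, nsmul_eq_mul, mul_one]
  have h1 : n.natAbs.primeFactors.filter (fun p => ¬ (h₀ < p ∧ p ≤ y)) ⊆
      Icc 1 h₀ ∪ n.natAbs.primeFactors.filter (fun p => y < p) := by
    intro p hp
    rw [mem_filter] at hp
    have hp1 := (Nat.prime_of_mem_primeFactors hp.1).one_lt
    rw [mem_union, mem_Icc, mem_filter]
    rcases lt_or_ge h₀ p with h2 | h2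
    · right
      refine ⟨hp.1, ?_⟩
      by_contra h3
      exact hp.2 ⟨h2, by omega⟩
    · left
      omega
  have h2 : (n.natAbs.primeFactors.filter (fun p => ¬ (h₀ < p ∧ p ≤ y))).card ≤ h₀ + K := by
    refine (card_le_card h1).trans ((card_union_le _ _).trans ?_)
    rw [Nat.card_Icc, Nat.add_sub_cancel]
    exact Nat.add_le_add_left (card_large hn' hy h) _
  exact_mod_cast h2

/-- the truncation of the mean of a function bounded by `1` -/
theorem trunc_mean {f : ℕ → ℝ} (hf : ∀ p, |f p| ≤ 1) {N K y h₀ : ℕ} (hy : 1 ≤ y) (hyN : y ≤ N)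
    (h : N ≤ (y + 1) ^ K) :
    |Am f N - ∑ p ∈ (Ioc h₀ y).filter Nat.Prime, f p / p| ≤ h₀ + 2 * K := by
  classical
  have e1 : (Ioc h₀ y).filter Nat.Prime =
      ((Icc 1 N).filter Nat.Prime).filter (fun p => h₀ < p ∧ p ≤ y) := by
    ext p
    rw [mem_filter, mem_filter, mem_filter, mem_Ioc, mem_Icc]
    constructor
    · rintro ⟨⟨h1, h2⟩, h3⟩
      exact ⟨⟨⟨h3.one_lt.le, h2.trans hyN⟩, h3⟩, h1, h2⟩
    · rintro ⟨⟨_, h3⟩, h1, h2⟩
      exact ⟨⟨h1, h2⟩, h3⟩
  rw [e1]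
  unfold Am
  rw [← sum_filter_add_sum_filter_not ((Icc 1 N).filter Nat.Prime) (fun p => h₀ < p ∧ p ≤ y),
    add_sub_cancel_left]
  have h0 : ∀ p ∈ (Icc 1 N).filter Nat.Prime, |f p / (p : ℝ)| ≤ 1 / p := by
    intro p hp
    rw [abs_div, Nat.abs_cast]
    exact div_le_div_of_nonneg_right (hf p) (Nat.cast_nonneg p)
  refine (abs_sum_le_sum_abs _ _).trans ?_
  refine (sum_le_sum fun p hp => h0 p (mem_filter.1 hp).1).trans ?_
  have h1 : ((Icc 1 N).filter Nat.Prime).filter (fun p => ¬ (h₀ < p ∧ p ≤ y)) ⊆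
      Icc 1 h₀ ∪ ((Icc 1 N).filter Nat.Prime).filter (fun p => y < p) := by
    intro p hp
    rw [mem_filter] at hp
    have hp1 := (mem_filter.1 hp.1).2.one_lt
    rw [mem_union, mem_Icc, mem_filter]
    rcases lt_or_ge h₀ p with h2 | h2
    · right
      refine ⟨hp.1, ?_⟩
      by_contra h3
      exact hp.2 ⟨h2, by omega⟩
    · left
      omega
  refine (sum_le_sum_of_subset_of_nonneg h1 fun p _ _ => by positivity).trans ?_
  have h2 : ∑ p ∈ Icc 1 h₀ ∪ ((Icc 1 N).filter Nat.Prime).filter (fun p => y < p), (1 : ℝ) / p ≤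
      ∑ p ∈ Icc 1 h₀, (1 : ℝ) / p +
        ∑ p ∈ ((Icc 1 N).filter Nat.Prime).filter (fun p => y < p), (1 : ℝ) / p := by
    rw [← sum_union_inter]
    exact le_add_of_nonneg_right (sum_nonneg fun p _ => by positivity)
  refine h2.trans (add_le_add ?_ (sum_large hy h))
  have h3 : ∀ p ∈ Icc 1 h₀, (1 : ℝ) / p ≤ 1 := by
    intro p hp
    rw [mem_Icc] at hp
    have : (1 : ℝ) ≤ p := by exact_mod_cast hp.1
    rw [div_le_one (by linarith)]
    exact this
  refine (sum_le_sum h3).trans ?_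
  rw [sum_const, Nat.card_Icc, nsmul_eq_mul, mul_one, Nat.add_sub_cancel]

end Pool.Agent.K7.H69.EK
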