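import Pool.Agent.X280.BP.Abs
import Pool.Agent.X280.BP.Local

/-!
Additive functions at linear forms: the local computations.
-/

set_option autoImplicit false

namespace Pool.Agent.K7.H69.EK

open Finset
open Pool.Agent.Y722.HS (EM EB box IH red)
open Pool.Agent.X280.BP (vv vv_eq)

variable {I : Type} [Fintype I]

theorem EM_unit (p : ℕ) [NeZero p] (f : ZMod p → ℝ) :
    EM p (fun c : Unit → ZMod p => f (c ())) = (∑ x, f x) / p := by
  unfold EM
  rw [Fintype.card_unit, pow_one]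
  congr 1
  exact Fintype.sum_equiv (Equiv.funUnique Unit (ZMod p)) _ _ (fun c => rfl)

open scoped Classical in
/-- the indicator of `a x + b = 0` -/
noncomputable def ind (p : ℕ) (a b : ℤ) (x : ZMod p) : ℝ :=
  if (a : ZMod p) * x + (b : ZMod p) = 0 then 1 else 0

lemma ind_abs (p : ℕ) (a b : ℤ) (x : ZMod p) : 0 ≤ ind p a b x ∧ ind p a b x ≤ 1 := by
  unfold ind
  split_ifs <;> norm_num

lemma ind_sq (p : ℕ) (a b : ℤ) (x : ZMod p) : ind p a b x * ind p a b x = ind p a b x := by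
  unfold ind
  split_ifs <;> norm_num

theorem sum_ind {p : ℕ} [NeZero p] (hp : p.Prime) {a : ℤ} (ha : ¬ (p : ℤ) ∣ a) (b : ℤ) :
    ∑ x : ZMod p, ind p a b x = 1 := by
  have : Fact p.Prime := ⟨hp⟩
  have ha0 : (a : ZMod p) ≠ 0 := by
    rw [Ne, ZMod.intCast_zmod_eq_zero_iff_dvd]
    exact ha
  unfold ind
  rw [Finset.sum_eq_single (-(b : ZMod p) / (a : ZMod p))]
  · rw [if_pos]
    field_simp
    ring
  · intro x _ hx
    rw [if_neg]
    intro h
    apply hx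
    rw [eq_div_iff ha0]
    linear_combination h
  · intro h
    exact absurd (Finset.mem_univ _) h

theorem ind_mul {p : ℕ} {a b a' b' : ℤ} (h : ¬ (p : ℤ) ∣ a * b' - a' * b) (x : ZMod p) :
    ind p a b x * ind p a' b' x = 0 := by
  unfold ind
  split_ifs with h1 h2 h2
  · exfalso
    apply h
    rw [← ZMod.intCast_zmod_eq_zero_iff_dvd]
    push_cast
    linear_combination (a : ZMod p) * h2 - (a' : ZMod p) * h1
  · norm_num
  · norm_num
  · norm_num

/-- the local data -/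
noncomputable def Zf (a b : I → ℤ) (w : I → ℕ → ℝ) (g : ℤ) (p : ℕ) (c : Unit → ZMod p) : ℝ :=
  ∑ i, w i p * (ind p (a i) (a i * g + b i) (c ()) - 1 / p)

theorem Zf_abs (a b : I → ℤ) (w : I → ℕ → ℝ) (g : ℤ) {p : ℕ} (hp : 1 ≤ p) (c : Unit → ZMod p) :
    |Zf a b w g p c| ≤ ∑ i, |w i p| := by
  unfold Zf
  refine (abs_sum_le_sum_abs _ _).trans (sum_le_sum fun i _ => ?_)
  rw [abs_mul]
  have h1 := ind_abs p (a i) (a i * g + b i) (c ())
  have hp0 : (1 : ℝ) ≤ p := by exact_mod_cast hp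
  have h2 : (0 : ℝ) ≤ 1 / p := by positivity
  have h3 : (1 : ℝ) / p ≤ 1 := by
    rw [div_le_one (by linarith)]
    exact hp0
  have h4 : |ind p (a i) (a i * g + b i) (c ()) - 1 / p| ≤ 1 := by
    rw [abs_le]
    constructor <;> linarith
  calc |w i p| * |ind p (a i) (a i * g + b i) (c ()) - 1 / p| ≤ |w i p| * 1 :=
        mul_le_mul_of_nonneg_left h4 (abs_nonneg _)
    _ = |w i p| := mul_one _

/-- the weighted sum of indicators -/
noncomputable def Uf (a b : I → ℤ) (w : I → ℕ → ℝ) (g : ℤ) (p : ℕ) (x : ZMod p) : ℝ :=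
  ∑ i, w i p * ind p (a i) (a i * g + b i) x

theorem sum_Uf {p : ℕ} [NeZero p] (hp : p.Prime) {a b : I → ℤ} (w : I → ℕ → ℝ) (g : ℤ)
    (ha : ∀ i, ¬ (p : ℤ) ∣ a i) : ∑ x : ZMod p, Uf a b w g p x = ∑ i, w i p := by
  unfold Uf
  rw [sum_comm]
  refine sum_congr rfl fun i _ => ?_
  rw [← mul_sum, sum_ind hp (ha i), mul_one]

theorem sum_Uf_sq {p : ℕ} [NeZero p] (hp : p.Prime) {a b : I → ℤ} {w : I → ℕ → ℝ} (g : ℤ)
    (ha : ∀ i, ¬ (p : ℤ) ∣ a i)
    (hd : ∀ i j, i ≠ j → w i p * w j p = 0 ∨ ¬ (p : ℤ) ∣ a i * b j - a j * b i) :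
    ∑ x : ZMod p, Uf a b w g p x ^ 2 = ∑ i, w i p ^ 2 := by
  classical
  have h1 : ∀ x : ZMod p, Uf a b w g p x ^ 2 = ∑ i, w i p ^ 2 * ind p (a i) (a i * g + b i) x := by
    intro x
    unfold Uf
    rw [pow_two, sum_mul_sum]
    refine sum_congr rfl fun i _ => ?_
    rw [Finset.sum_eq_single i]
    · rw [mul_mul_mul_comm, ind_sq, pow_two]
    · intro j _ hj
      rw [mul_mul_mul_comm]
      rcases hd i j (Ne.symm hj) with h | h
      · rw [h, zero_mul]
      · rw [ind_mul, mul_zero]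
        have e : a i * (a j * g + b j) - a j * (a i * g + b i) = a i * b j - a j * b i := by ring
        rw [e]
        exact h
    · intro h
      exact absurd (mem_univ _) h
  rw [sum_congr rfl (fun x _ => h1 x), sum_comm]
  refine sum_congr rfl fun i _ => ?_
  rw [← mul_sum, sum_ind hp (ha i), mul_one]

theorem Zf_eq (a b : I → ℤ) (w : I → ℕ → ℝ) (g : ℤ) (p : ℕ) (c : Unit → ZMod p) :
    Zf a b w g p c = Uf a b w g p (c ()) - (∑ i, w i p) / p := by
  unfold Zf Uf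
  rw [sum_div, ← sum_sub_distrib]
  refine sum_congr rfl fun i _ => ?_
  ring

theorem Zf_mean {p : ℕ} [NeZero p] (hp : p.Prime) {a b : I → ℤ} (w : I → ℕ → ℝ) (g : ℤ)
    (ha : ∀ i, ¬ (p : ℤ) ∣ a i) : EM p (Zf a b w g p) = 0 := by
  have h : Zf a b w g p = fun c : Unit → ZMod p =>
      (fun x : ZMod p => Uf a b w g p x - (∑ i, w i p) / p) (c ()) := by
    funext c
    exact Zf_eq a b w g p c
  rw [h, EM_unit p (fun x : ZMod p => Uf a b w g p x - (∑ i, w i p) / p), sum_sub_distrib,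
    sum_Uf hp w g ha, sum_const, card_univ, ZMod.card, nsmul_eq_mul]
  have hp0 : (p : ℝ) ≠ 0 := by exact_mod_cast hp.ne_zero
  field_simp
  ring

theorem Zf_var {p : ℕ} [NeZero p] (hp : p.Prime) {a b : I → ℤ} {w : I → ℕ → ℝ} (g : ℤ)
    (ha : ∀ i, ¬ (p : ℤ) ∣ a i)
    (hd : ∀ i j, i ≠ j → w i p * w j p = 0 ∨ ¬ (p : ℤ) ∣ a i * b j - a j * b i) :
    vv (Zf a b w g) p = (∑ i, w i p ^ 2) / p - (∑ i, w i p) ^ 2 / (p : ℝ) ^ 2 := by
  rw [vv_eq]
  have h : (fun c : Unit → ZMod p => Zf a b w g p c ^ 2) = fun c : Unit → ZMod p =>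
      (fun x : ZMod p => Uf a b w g p x ^ 2 - 2 * ((∑ i, w i p) / p) * Uf a b w g p x +
        ((∑ i, w i p) / p) ^ 2) (c ()) := by
    funext c
    show Zf a b w g p c ^ 2 = _
    rw [Zf_eq a b w g p c]
    ring
  rw [h, EM_unit p (fun x : ZMod p => Uf a b w g p x ^ 2 - 2 * ((∑ i, w i p) / p) * Uf a b w g p x +
        ((∑ i, w i p) / p) ^ 2), sum_add_distrib, sum_sub_distrib, ← mul_sum, sum_Uf hp w g ha, sum_Uf_sq hp g ha hd,
    sum_const, card_univ, ZMod.card, nsmul_eq_mul]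
  have hp0 : (p : ℝ) ≠ 0 := by exact_mod_cast hp.ne_zero
  field_simp
  ring

end Pool.Agent.K7.H69.EK
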