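import Pool.Agent.X280.HG.Law
import Pool.Agent.K7.H69.EK.Loc
import Pool.Agent.K7.H69.EK.Ar

/-!
The joint normal law of additive functions at linear forms (convergence of the characteristic functions).
-/

set_option autoImplicit false

namespace Pool.Agent.K7.H69.EK

open Finset hiding box
open Filter Topology
open Pool.Agent.Y722.HS (EM EB box IH red)
open Pool.Agent.X280.BP (vv vv_eq EBc)
open Pool.Agent.X280.UC (SP VP)
open Pool.Agent.X280.HG (Dat2 unif_char2 far)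

variable {I : Type} [Fintype I]

/-- linear forms and additive functions; functions at proportional forms have disjoint supports -/
structure Sys (a b : I → ℤ) (f : I → ℕ → ℝ) : Prop where
  ne : ∀ i, a i ≠ 0
  le : ∀ i p, |f i p| ≤ 1
  dis : ∀ i j, i ≠ j → a i * b j = a j * b i → ∀ p, f i p * f j p = 0
  inf : ∀ i, Tendsto (fun N => Bm (f i) N) atTop atTop

/-- the normalised value -/
noncomputable def Xn (a b : I → ℤ) (f : I → ℕ → ℝ) (N : ℕ) (n : ℤ) (i : I) : ℝ :=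
  (add (f i) (a i * n + b i) - Am (f i) N) / Bm (f i) N

/-- the characteristic function before averaging -/
noncomputable def Gn (a b : I → ℤ) (f : I → ℕ → ℝ) (t : I → ℝ) (N : ℕ) (n : ℤ) : ℂ :=
  Complex.exp ((∑ i, t i * Xn a b f N n i : ℝ) * Complex.I)

lemma Gn_norm (a b : I → ℤ) (f : I → ℕ → ℝ) (t : I → ℝ) (N : ℕ) (n : ℤ) : ‖Gn a b f t N n‖ = 1 := by
  unfold Gn
  exact Complex.norm_exp_ofReal_mul_I _

theorem box_unit {E : Type*} [AddCommMonoid E] (H : ℕ) (F : ℤ → E) :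
    ∑ c ∈ box Unit H, F (c ()) = ∑ z ∈ Icc (-(H : ℤ)) H, F z := by
  unfold box IH
  refine sum_nbij' (fun c => c ()) (fun z _ => z) ?_ ?_ ?_ ?_ ?_
  · intro c hc
    rw [Fintype.mem_piFinset] at hc
    exact hc ()
  · intro z hz
    rw [Fintype.mem_piFinset]
    exact fun _ => hz
  · intro c _
    rfl
  · intro z _
    rfl
  · intro c _
    rfl

theorem shift_sum {E : Type*} [AddCommMonoid E] (H : ℕ) (F : ℤ → E) :
    ∑ z ∈ Icc (-(H : ℤ)) H, F (z + (H + 1)) = ∑ m ∈ Icc 1 (2 * H + 1), F ((m : ℕ) : ℤ) := by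
  refine sum_nbij' (fun z => (z + (H + 1)).toNat) (fun m => ((m : ℕ) : ℤ) - (H + 1)) ?_ ?_ ?_ ?_ ?_
  · intro z hz
    rw [mem_Icc] at hz ⊢
    omega
  · intro m hm
    rw [mem_Icc] at hm ⊢
    omega
  · intro z hz
    rw [mem_Icc] at hz
    show (((z + (H + 1)).toNat : ℕ) : ℤ) - (H + 1) = z
    omega
  · intro m hm
    rw [mem_Icc] at hm
    show (((m : ℕ) : ℤ) - (H + 1) + (H + 1)).toNat = m
    omega
  · intro z hz
    rw [mem_Icc] at hz
    congr 1
    omega

/-- adding one term to an average -/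
theorem avg_add {F : ℕ → ℂ} (hF : ∀ n, ‖F n‖ ≤ 1) (M : ℕ) (hM : 1 ≤ M) :
    ‖(∑ n ∈ Icc 1 (M + 1), F n) / ((M + 1 : ℕ) : ℂ) - (∑ n ∈ Icc 1 M, F n) / (M : ℂ)‖ ≤ 2 / (M : ℝ) := by
  have hM0 : (0 : ℝ) < M := by exact_mod_cast hM
  have hMc : (M : ℂ) ≠ 0 := by exact_mod_cast hM0.ne'
  have hMc1 : ((M : ℂ) + 1) ≠ 0 := by
    have : ((M + 1 : ℕ) : ℂ) ≠ 0 := by exact_mod_cast (by omega : M + 1 ≠ 0)
    push_cast at this
    exact this
  rw [← Nat.succ_eq_add_one, Finset.sum_Icc_succ_top (by omega)]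
  have e : (∑ n ∈ Icc 1 M, F n + F M.succ) / ((M.succ : ℕ) : ℂ) - (∑ n ∈ Icc 1 M, F n) / (M : ℂ) =
      F M.succ / ((M : ℂ) + 1) - (∑ n ∈ Icc 1 M, F n) / ((M : ℂ) * ((M : ℂ) + 1)) := by
    push_cast
    field_simp
    ring
  rw [e]
  have h1 : ‖∑ n ∈ Icc 1 M, F n‖ ≤ M := by
    refine (norm_sum_le _ _).trans ((sum_le_sum fun n _ => hF n).trans ?_)
    rw [sum_const, Nat.card_Icc, nsmul_eq_mul, mul_one, Nat.add_sub_cancel]
  have h2 : ‖(M : ℂ) + 1‖ = (M : ℝ) + 1 := by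
    have : ((M : ℂ) + 1) = (((M : ℝ) + 1 : ℝ) : ℂ) := by push_cast; rfl
    rw [this, Complex.norm_real, Real.norm_eq_abs, abs_of_pos (by positivity)]
  have h3 : ‖F M.succ / ((M : ℂ) + 1)‖ ≤ 1 / (M : ℝ) := by
    rw [norm_div, h2]
    exact (div_le_div_of_nonneg_right (hF _) (by positivity)).trans
      (one_div_le_one_div_of_le hM0 (by linarith))
  have h4 : ‖(∑ n ∈ Icc 1 M, F n) / ((M : ℂ) * ((M : ℂ) + 1))‖ ≤ 1 / (M : ℝ) := by
    rw [norm_div, norm_mul, h2, Complex.norm_natCast, div_le_iff₀ (by positivity)]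
    refine h1.trans ?_
    have : 1 / (M : ℝ) * (M * ((M : ℝ) + 1)) = (M : ℝ) + 1 := by field_simp
    rw [this]
    linarith
  refine (norm_sub_le _ _).trans ((add_le_add h3 h4).trans (le_of_eq ?_))
  ring

/-- few zeros of the linear forms -/
theorem card_zero {a b : I → ℤ} (ha : ∀ i, a i ≠ 0) (S : Finset ℤ) :
    (S.filter (fun z => ∃ i, a i * z + b i = 0)).card ≤ Fintype.card I := by
  classical
  have h1 : S.filter (fun z => ∃ i, a i * z + b i = 0) ⊆
      (univ : Finset I).image (fun i => -(b i) / a i) := by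
    intro z hz
    obtain ⟨-, i, hi⟩ := mem_filter.1 hz
    rw [mem_image]
    refine ⟨i, mem_univ i, ?_⟩
    have : -(b i) = a i * z := by linarith
    rw [this, Int.mul_ediv_cancel_left _ (ha i)]
  refine (card_le_card h1).trans (card_image_le.trans (le_of_eq ?_))
  rfl

end Pool.Agent.K7.H69.EK
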