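import Pool.Agent.K7.H69.EK.Clt

/-!
The joint normal law of additive functions at linear forms: verification of the hypotheses.
-/

set_option autoImplicit false

namespace Pool.Agent.K7.H69.EK

open Finset hiding box
open Filter Topology
open Pool.Agent.Y722.HS (EM EB box IH red)
open Pool.Agent.X280.BP (vv vv_eq EBc)
open Pool.Agent.X280.UC (SP VP)
open Pool.Agent.X280.HG (Dat2 unif_char2 far)

variable {I : Type} [Fintype I]

/-- the size of the coefficients -/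
noncomputable def tau (f : I → ℕ → ℝ) (t : I → ℝ) (N : ℕ) : ℝ := ∑ i, |t i| / Bm (f i) N

/-- the weights -/
noncomputable def wt (f : I → ℕ → ℝ) (t : I → ℝ) (N : ℕ) (i : I) (p : ℕ) : ℝ :=
  t i * f i p / Bm (f i) N

lemma tau_nonneg (f : I → ℕ → ℝ) (t : I → ℝ) (N : ℕ) : 0 ≤ tau f t N :=
  sum_nonneg fun i _ => div_nonneg (abs_nonneg _) (Bm_nonneg _ _)

lemma wt_abs {f : I → ℕ → ℝ} (hf : ∀ i p, |f i p| ≤ 1) (t : I → ℝ) (N : ℕ) (i : I) (p : ℕ) :
    |wt f t N i p| ≤ |t i| / Bm (f i) N := by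
  unfold wt
  rw [abs_div, abs_mul, abs_of_nonneg (Bm_nonneg (f i) N)]
  refine div_le_div_of_nonneg_right ?_ (Bm_nonneg _ _)
  calc |t i| * |f i p| ≤ |t i| * 1 := mul_le_mul_of_nonneg_left (hf i p) (abs_nonneg _)
    _ = |t i| := mul_one _

theorem ind_eq (p : ℕ) (a b g z : ℤ) [Decidable ((p : ℤ) ∣ a * (z + g) + b)] :
    ind p a (a * g + b) ((z : ℤ) : ZMod p) = if (p : ℤ) ∣ a * (z + g) + b then 1 else 0 := by
  unfold ind
  have h : ((a : ZMod p) * ((z : ℤ) : ZMod p) + ((a * g + b : ℤ) : ZMod p) = 0) ↔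
      (p : ℤ) ∣ a * (z + g) + b := by
    rw [← ZMod.intCast_zmod_eq_zero_iff_dvd]
    push_cast
    constructor
    · intro h
      linear_combination h
    · intro h
      linear_combination h
  by_cases h1 : (p : ℤ) ∣ a * (z + g) + b
  · rw [if_pos (h.2 h1), if_pos h1]
  · rw [if_neg (fun h2 => h1 (h.1 h2)), if_neg h1]

open scoped Classical in
theorem SP_eq (a b : I → ℤ) (f : I → ℕ → ℝ) (t : I → ℝ) (N : ℕ) (g : ℤ) (P : Finset ℕ)
    (c : Unit → ℤ) : SP (Zf a b (wt f t N) g) P c = ∑ i, t i / Bm (f i) N *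
      (∑ p ∈ P, (if (p : ℤ) ∣ a i * (c () + g) + b i then f i p else 0) - ∑ p ∈ P, f i p / p) := by
  unfold SP Zf
  rw [sum_comm]
  refine sum_congr rfl fun i _ => ?_
  rw [← sum_sub_distrib, mul_sum]
  refine sum_congr rfl fun p _ => ?_
  have h1 : red p c () = ((c () : ℤ) : ZMod p) := rfl
  rw [h1, ind_eq]
  unfold wt
  split_ifs <;> ring

/-- the truncated statistic is near the full one -/
theorem near_one {a b : I → ℤ} {f : I → ℕ → ℝ} (hf : ∀ i p, |f i p| ≤ 1) (t : I → ℝ) {N K y h₀ : ℕ}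
    (hy : 1 ≤ y) (hyN : y ≤ N) (hN : N ≤ (y + 1) ^ K) (g : ℤ) (c : Unit → ℤ)
    (hne : ∀ i, a i * (c () + g) + b i ≠ 0)
    (hle : ∀ i, (a i * (c () + g) + b i).natAbs ≤ (y + 1) ^ K) :
    |∑ i, t i * Xn a b f N (c () + g) i -
      SP (Zf a b (wt f t N) g) ((Ioc h₀ y).filter Nat.Prime) c| ≤ tau f t N * (2 * h₀ + 3 * K) := by
  classical
  rw [SP_eq, ← sum_sub_distrib]
  refine (abs_sum_le_sum_abs _ _).trans ?_
  unfold tau
  rw [sum_mul]
  refine sum_le_sum fun i _ => ?_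
  have h1 := trunc_add (hf i) (hne i) (h₀ := h₀) hy (hle i)
  have h2 := trunc_mean (hf i) (h₀ := h₀) hy hyN hN
  unfold Xn
  have e : t i * ((add (f i) (a i * (c () + g) + b i) - Am (f i) N) / Bm (f i) N) -
      t i / Bm (f i) N * (∑ p ∈ (Ioc h₀ y).filter Nat.Prime,
        (if (p : ℤ) ∣ a i * (c () + g) + b i then f i p else 0) -
        ∑ p ∈ (Ioc h₀ y).filter Nat.Prime, f i p / p) =
      t i / Bm (f i) N * ((add (f i) (a i * (c () + g) + b i) -
        ∑ p ∈ (Ioc h₀ y).filter Nat.Prime, (if (p : ℤ) ∣ a i * (c () + g) + b i then f i p else 0)) -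
        (Am (f i) N - ∑ p ∈ (Ioc h₀ y).filter Nat.Prime, f i p / p)) := by ring
  rw [e, abs_mul, abs_div, abs_of_nonneg (Bm_nonneg (f i) N)]
  refine mul_le_mul_of_nonneg_left ?_ (div_nonneg (abs_nonneg _) (Bm_nonneg _ _))
  refine (abs_sub _ _).trans ((add_le_add h1 h2).trans (le_of_eq ?_))
  ring

/-- the variance -/
theorem var_one {a b : I → ℤ} {f : I → ℕ → ℝ} (hf : ∀ i p, |f i p| ≤ 1)
    (hdis : ∀ i j, i ≠ j → a i * b j = a j * b i → ∀ p, f i p * f j p = 0) (t : I → ℝ)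
    {N K y h₀ : ℕ} (hy : 1 ≤ y) (hyN : y ≤ N) (hN : N ≤ (y + 1) ^ K) (g : ℤ)
    (ha : ∀ i, a i ≠ 0) (ha' : ∀ i, (a i).natAbs ≤ h₀)
    (hdet : ∀ i j, (a i * b j - a j * b i).natAbs ≤ h₀) (hB : ∀ i, 0 < Bm (f i) N) :
    |VP (Zf a b (wt f t N) g) ((Ioc h₀ y).filter Nat.Prime) - ∑ i, t i ^ 2| ≤
      tau f t N ^ 2 * (h₀ + 2 * K + 2) := by
  classical
  set P := (Ioc h₀ y).filter Nat.Prime with hP
  have hmem : ∀ p ∈ P, p.Prime ∧ h₀ < p := by
    intro p hp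
    rw [hP, mem_filter, mem_Ioc] at hp
    exact ⟨hp.2, hp.1.1⟩
  have hnd : ∀ p ∈ P, ∀ z : ℤ, z ≠ 0 → z.natAbs ≤ h₀ → ¬ (p : ℤ) ∣ z := by
    intro p hp z hz hz2 hd
    have h1 := Nat.le_of_dvd (by omega) (Int.natCast_dvd.1 hd)
    have := (hmem p hp).2
    omega
  have h1 : ∀ p ∈ P, vv (Zf a b (wt f t N) g) p =
      (∑ i, wt f t N i p ^ 2) / p - (∑ i, wt f t N i p) ^ 2 / (p : ℝ) ^ 2 := by
    intro p hp
    have hpp := (hmem p hp).1
    have : NeZero p := ⟨hpp.ne_zero⟩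
    refine Zf_var hpp g (fun i => hnd p hp _ (ha i) (ha' i)) fun i j hij => ?_
    by_cases hd : a i * b j = a j * b i
    · left
      have h2 := hdis i j hij hd p
      unfold wt
      have e : t i * f i p / Bm (f i) N * (t j * f j p / Bm (f j) N) =
          (f i p * f j p) * (t i * t j / (Bm (f i) N * Bm (f j) N)) := by
        field_simp
      rw [e, h2, zero_mul]
    · right
      exact hnd p hp _ (sub_ne_zero.2 hd) (hdet i j)
  unfold VP
  rw [sum_congr rfl h1, sum_sub_distrib]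
  have h2 : ∑ p ∈ P, (∑ i, wt f t N i p ^ 2) / (p : ℝ) =
      ∑ i, (t i / Bm (f i) N) ^ 2 * ∑ p ∈ P, f i p ^ 2 / p := by
    rw [sum_congr rfl (fun p _ => sum_div univ (fun i => wt f t N i p ^ 2) (p : ℝ)), sum_comm]
    refine sum_congr rfl fun i _ => ?_
    rw [mul_sum]
    refine sum_congr rfl fun p _ => ?_
    unfold wt
    rw [div_pow, div_pow, mul_pow]
    ring
  have h3 : |∑ i, (t i / Bm (f i) N) ^ 2 * ∑ p ∈ P, f i p ^ 2 / p - ∑ i, t i ^ 2| ≤
      tau f t N ^ 2 * (h₀ + 2 * K) := by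
    rw [← sum_sub_distrib]
    refine (abs_sum_le_sum_abs _ _).trans ?_
    have h4 : ∀ i, |(t i / Bm (f i) N) ^ 2 * ∑ p ∈ P, f i p ^ 2 / p - t i ^ 2| ≤
        (|t i| / Bm (f i) N) ^ 2 * (h₀ + 2 * K) := by
      intro i
      have h5 := trunc_mean (f := fun p => f i p ^ 2) (fun p => by
        rw [abs_pow]
        exact pow_le_one₀ (abs_nonneg _) (hf i p)) (h₀ := h₀) hy hyN hN
      have h6 : Am (fun p => f i p ^ 2) N = Bm (f i) N ^ 2 := by
        rw [Bm_sq]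
        rfl
      rw [h6] at h5
      have e : (t i / Bm (f i) N) ^ 2 * ∑ p ∈ P, f i p ^ 2 / p - t i ^ 2 =
          (t i / Bm (f i) N) ^ 2 * (∑ p ∈ P, f i p ^ 2 / p - Bm (f i) N ^ 2) := by
        have := (hB i).ne'
        field_simp
      rw [e, abs_mul, abs_pow, abs_div, abs_of_pos (hB i), abs_sub_comm]
      exact mul_le_mul_of_nonneg_left h5 (by positivity)
    refine (sum_le_sum fun i _ => h4 i).trans ?_
    rw [← sum_mul]
    refine mul_le_mul_of_nonneg_right ?_ (by positivity)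
    unfold tau
    exact sum_sq_le_sq_sum_of_nonneg (fun i _ => div_nonneg (abs_nonneg _) (Bm_nonneg _ _))
  have h4 : |∑ p ∈ P, (∑ i, wt f t N i p) ^ 2 / (p : ℝ) ^ 2| ≤ tau f t N ^ 2 * 2 := by
    refine (abs_sum_le_sum_abs _ _).trans ?_
    have h5 : ∀ p ∈ P, |(∑ i, wt f t N i p) ^ 2 / (p : ℝ) ^ 2| ≤ tau f t N ^ 2 * ((p : ℝ) ^ 2)⁻¹ := by
      intro p _
      rw [abs_div, abs_pow, abs_of_nonneg (sq_nonneg (p : ℝ)), div_eq_mul_inv]
      refine mul_le_mul_of_nonneg_right ?_ (by positivity)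
      refine pow_le_pow_left₀ (abs_nonneg _) ?_ 2
      refine (abs_sum_le_sum_abs _ _).trans ?_
      exact sum_le_sum fun i _ => wt_abs hf t N i p
    refine (sum_le_sum h5).trans ?_
    rw [← mul_sum]
    refine mul_le_mul_of_nonneg_left ?_ (sq_nonneg _)
    have h6 := sum_Ioo_inv_sq_le (α := ℝ) 0 (y + 1)
    refine le_trans (sum_le_sum_of_subset_of_nonneg (t := Ioo 0 (y + 1)) ?_ fun p _ _ => by positivity)
      (h6.trans (by norm_num))
    intro p hp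
    rw [hP, mem_filter, mem_Ioc] at hp
    rw [mem_Ioo]
    omega
  rw [h2]
  have e : ∑ i, (t i / Bm (f i) N) ^ 2 * ∑ p ∈ P, f i p ^ 2 / p -
      ∑ p ∈ P, (∑ i, wt f t N i p) ^ 2 / (p : ℝ) ^ 2 - ∑ i, t i ^ 2 =
      (∑ i, (t i / Bm (f i) N) ^ 2 * ∑ p ∈ P, f i p ^ 2 / p - ∑ i, t i ^ 2) -
      ∑ p ∈ P, (∑ i, wt f t N i p) ^ 2 / (p : ℝ) ^ 2 := by ring
  rw [e]
  refine (abs_sub _ _).trans ((add_le_add h3 h4).trans (le_of_eq ?_))
  ring

end Pool.Agent.K7.H69.EK
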