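import Pool.Agent.K7.H69.EK.Clt2

/-!
The joint normal law of additive functions at linear forms: conclusion.
-/

set_option autoImplicit false

namespace Pool.Agent.K7.H69.EK

open Finset hiding box
open Filter Topology
open Pool.Agent.Y722.HS (EM EB box IH red)
open Pool.Agent.X280.BP (vv vv_eq EBc)
open Pool.Agent.X280.UC (SP VP)
open Pool.Agent.X280.HG (Dat2 unif_char2 far)

variable {I : Type} [Fintype I]

theorem tau_tendsto {a b : I → ℤ} {f : I → ℕ → ℝ} (hS : Sys a b f) (t : I → ℝ) :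
    Tendsto (fun N => tau f t N) atTop (𝓝 0) := by
  unfold tau
  have h : Tendsto (fun N => ∑ i, |t i| / Bm (f i) N) atTop (𝓝 (∑ _i : I, (0 : ℝ))) :=
    tendsto_finsetSum _ fun i _ => tendsto_const_nhds.div_atTop (hS.inf i)
  simpa using h

/-- the data -/
noncomputable def Dd (a b : I → ℤ) (f : I → ℕ → ℝ) (t : I → ℝ) (σ : ℝ) (N h₀ y H : ℕ) : Dat2 Unit where
  P := (Ioc h₀ y).filter Nat.Prime
  y := y
  H := H
  Z := Zf a b (wt f t N) ((H : ℤ) + 1)
  Q := fun c => (∑ i, t i * Xn a b f N (c () + ((H : ℤ) + 1)) i) / σ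
  σ := σ

theorem Dd_near {a b : I → ℤ} {f : I → ℕ → ℝ} (hS : Sys a b f) (t : I → ℝ) {σ : ℝ} (hσ : 0 < σ)
    {N K y h₀ H : ℕ} (hy : 1 ≤ y) (hyN : y ≤ N) (hN : N ≤ (y + 1) ^ K)
    (hle : ∀ i, (a i).natAbs * (2 * H + 1) + (b i).natAbs ≤ (y + 1) ^ K) {η : ℝ}
    (hτ : tau f t N * (2 * h₀ + 3 * K) ≤ σ * η) (hη : 0 < η) (hI : (Fintype.card I : ℝ) ≤ η * (2 * H + 1)) :
    EB H (far (Dd a b f t σ N h₀ y H).Q (fun c => SP (Dd a b f t σ N h₀ y H).Z
      (Dd a b f t σ N h₀ y H).P c / σ) η) ≤ η := by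
  classical
  unfold EB
  rw [Fintype.card_unit, pow_one, div_le_iff₀ (by positivity)]
  refine le_trans ?_ hI
  have h1 : ∀ c ∈ box Unit H, far (Dd a b f t σ N h₀ y H).Q (fun c => SP (Dd a b f t σ N h₀ y H).Z
      (Dd a b f t σ N h₀ y H).P c / σ) η c ≤
      (fun z : ℤ => if ∃ i, a i * z + (a i * ((H : ℤ) + 1) + b i) = 0 then (1 : ℝ) else 0) (c ()) := by
    intro c hc
    have hc1 : c () ∈ IH H := by
      unfold box at hc
      exact Fintype.mem_piFinset.1 hc ()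
    unfold IH at hc1
    rw [mem_Icc] at hc1
    show _ ≤ if ∃ i, a i * c () + (a i * ((H : ℤ) + 1) + b i) = 0 then (1 : ℝ) else 0
    split_ifs with h2
    · unfold far
      split_ifs <;> norm_num
    · push Not at h2
      have h3 := near_one (a := a) (b := b) hS.le t (h₀ := h₀) hy hyN hN ((H : ℤ) + 1) c
        (fun i => by
          have := h2 i
          intro h4
          apply this
          rw [← h4]
          ring)
        (fun i => by
          refine le_trans ?_ (hle i)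
          have h4 : (c () + ((H : ℤ) + 1)).natAbs ≤ 2 * H + 1 := by omega
          calc (a i * (c () + ((H : ℤ) + 1)) + b i).natAbs ≤
              (a i * (c () + ((H : ℤ) + 1))).natAbs + (b i).natAbs := Int.natAbs_add_le _ _
            _ = (a i).natAbs * (c () + ((H : ℤ) + 1)).natAbs + (b i).natAbs := by
                rw [Int.natAbs_mul]
            _ ≤ _ := by gcongr)
      unfold far
      rw [if_pos]
      show |(∑ i, t i * Xn a b f N (c () + ((H : ℤ) + 1)) i) / σ -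
        SP (Zf a b (wt f t N) ((H : ℤ) + 1)) ((Ioc h₀ y).filter Nat.Prime) c / σ| ≤ η
      rw [← sub_div, abs_div, abs_of_pos hσ, div_le_iff₀ hσ, mul_comm η σ]
      exact h3.trans hτ
  refine (sum_le_sum h1).trans ?_
  rw [box_unit H (fun z : ℤ => if ∃ i, a i * z + (a i * ((H : ℤ) + 1) + b i) = 0 then (1 : ℝ) else 0),
    ← sum_filter, sum_const, nsmul_eq_mul, mul_one]
  exact_mod_cast card_zero hS.ne _

theorem Dd_char (a b : I → ℤ) (f : I → ℕ → ℝ) (t : I → ℝ) {σ : ℝ} (hσ : 0 < σ) (N h₀ y H : ℕ) :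
    EBc H (fun c => Complex.exp ((σ * (Dd a b f t σ N h₀ y H).Q c : ℝ) * Complex.I)) =
      (∑ m ∈ Icc 1 (2 * H + 1), Gn a b f t N ((m : ℕ) : ℤ)) / ((2 * H + 1 : ℕ) : ℂ) := by
  unfold EBc
  rw [Fintype.card_unit, pow_one]
  have h1 : ∀ c ∈ box Unit H, Complex.exp ((σ * (Dd a b f t σ N h₀ y H).Q c : ℝ) * Complex.I) =
      (fun z : ℤ => Gn a b f t N (z + ((H : ℤ) + 1))) (c ()) := by
    intro c _
    show Complex.exp ((σ * ((∑ i, t i * Xn a b f N (c () + ((H : ℤ) + 1)) i) / σ) : ℝ) * Complex.I) = _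
    rw [mul_div_cancel₀ _ hσ.ne']
    rfl
  rw [sum_congr rfl h1, box_unit H (fun z : ℤ => Gn a b f t N (z + ((H : ℤ) + 1))),
    shift_sum H (fun z : ℤ => Gn a b f t N z)]
  push_cast
  rfl

/-- **The joint normal law.** -/
theorem clt {a b : I → ℤ} {f : I → ℕ → ℝ} (hS : Sys a b f) (t : I → ℝ) :
    Tendsto (fun N : ℕ => (∑ n ∈ Icc 1 N, Gn a b f t N ((n : ℕ) : ℤ)) / (N : ℂ)) atTop
      (𝓝 ((Real.exp (-((∑ i, t i ^ 2) / 2)) : ℝ) : ℂ)) := by
  classical
  by_cases h0 : ∑ i, t i ^ 2 = 0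
  · have ht : ∀ i, t i = 0 := by
      intro i
      have := (sum_eq_zero_iff_of_nonneg (fun i _ => sq_nonneg (t i))).1 h0 i (mem_univ i)
      exact pow_eq_zero_iff (by norm_num) |>.1 this
    rw [h0, zero_div, neg_zero, Real.exp_zero, Complex.ofReal_one]
    refine tendsto_const_nhds.congr' ?_
    filter_upwards [eventually_ge_atTop 1] with N hN
    have h1 : ∀ n ∈ Icc 1 N, Gn a b f t N ((n : ℕ) : ℤ) = 1 := by
      intro n _
      unfold Gn
      simp [ht]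
    have hNc : (N : ℂ) ≠ 0 := by exact_mod_cast (by omega : N ≠ 0)
    rw [sum_congr rfl h1, sum_const, Nat.card_Icc, nsmul_eq_mul, mul_one, Nat.add_sub_cancel,
      div_self hNc]
  -- the main case
  have hpos : 0 < ∑ i, t i ^ 2 := lt_of_le_of_ne (sum_nonneg fun i _ => sq_nonneg (t i)) (Ne.symm h0)
  obtain ⟨σ, hσd⟩ : ∃ σ : ℝ, σ = √(∑ i, t i ^ 2) := ⟨_, rfl⟩
  have hσ : 0 < σ := by rw [hσd]; exact Real.sqrt_pos.2 hpos
  have hσ2 : σ ^ 2 = ∑ i, t i ^ 2 := by rw [hσd]; exact Real.sq_sqrt hpos.le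
  rw [Metric.tendsto_atTop]
  intro ε hε
  obtain ⟨k₀, hk₀⟩ := unif_char2 (ι := Unit) σ (half_pos hε)
  obtain ⟨K, hKd⟩ : ∃ K : ℕ, K = max k₀ 1 := ⟨_, rfl⟩
  have hK1 : 1 ≤ K := by rw [hKd]; exact le_max_right _ _
  have hKk : k₀ ≤ K := by rw [hKd]; exact le_max_left _ _
  obtain ⟨h₀, hh₀⟩ : ∃ h₀ : ℕ, h₀ = ∑ i, (a i).natAbs + ∑ i, ∑ j, (a i * b j - a j * b i).natAbs :=
    ⟨_, rfl⟩
  have ha' : ∀ i, (a i).natAbs ≤ h₀ := by
    intro i
    rw [hh₀]
    exact (single_le_sum (f := fun i => (a i).natAbs) (fun _ _ => Nat.zero_le _) (mem_univ i)).trans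
      (Nat.le_add_right _ _)
  have hdet : ∀ i j, (a i * b j - a j * b i).natAbs ≤ h₀ := by
    intro i j
    rw [hh₀]
    have h1 : (a i * b j - a j * b i).natAbs ≤ ∑ j, (a i * b j - a j * b i).natAbs :=
      single_le_sum (f := fun j => (a i * b j - a j * b i).natAbs) (fun _ _ => Nat.zero_le _)
        (mem_univ j)
    have h2 : ∑ j, (a i * b j - a j * b i).natAbs ≤ ∑ i, ∑ j, (a i * b j - a j * b i).natAbs :=
      single_le_sum (f := fun i => ∑ j, (a i * b j - a j * b i).natAbs) (fun _ _ => Nat.zero_le _)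
        (mem_univ i)
    omega
  obtain ⟨C, hC⟩ : ∃ C : ℕ, C = ∑ i, (3 * (a i).natAbs + (b i).natAbs) + 4 := ⟨_, rfl⟩
  have hCi : ∀ i, 3 * (a i).natAbs + (b i).natAbs ≤ C := by
    intro i
    rw [hC]
    exact (single_le_sum (f := fun i => 3 * (a i).natAbs + (b i).natAbs) (fun _ _ => Nat.zero_le _)
      (mem_univ i)).trans (Nat.le_add_right _ _)
  obtain ⟨Y, hY⟩ : ∃ Y : ℕ, Y = K + C + 1 := ⟨_, rfl⟩
  -- small parameters
  have hK0 : (0 : ℝ) < (K : ℝ) + 1 := by positivity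
  obtain ⟨L, hL⟩ : ∃ L : ℝ, L = 2 * h₀ + 3 * ((K + 1 : ℕ) : ℝ) + 2 := ⟨_, rfl⟩
  have hL1 : 1 ≤ L := by
    rw [hL]
    have : (0 : ℝ) ≤ h₀ := Nat.cast_nonneg _
    have : (0 : ℝ) ≤ ((K + 1 : ℕ) : ℝ) := Nat.cast_nonneg _
    linarith
  have hL0 : 0 < L := by linarith
  obtain ⟨η, hη⟩ : ∃ η : ℝ, η = min (min 1 σ) (σ ^ 2) / ((K + 1) * L) := ⟨_, rfl⟩
  have hη0 : 0 < η := by rw [hη]; positivity
  have hη1 : η * L ≤ σ / (K + 1) := by
    have : η * L = min (min 1 σ) (σ ^ 2) / (K + 1) := by rw [hη]; field_simp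
    rw [this]
    exact div_le_div_of_nonneg_right ((min_le_left _ _).trans (min_le_right _ _)) hK0.le
  have hη2 : η * L ≤ σ ^ 2 / (K + 1) := by
    have : η * L = min (min 1 σ) (σ ^ 2) / (K + 1) := by rw [hη]; field_simp
    rw [this]
    exact div_le_div_of_nonneg_right (min_le_right _ _) hK0.le
  have hη3 : η ≤ 1 := by
    rw [hη, div_le_one (by positivity)]
    refine ((min_le_left _ _).trans (min_le_left _ _)).trans ?_
    nlinarith [Nat.cast_nonneg (α := ℝ) K]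
  -- large `N`
  have hev : ∀ᶠ N : ℕ in atTop, tau f t N ≤ η ∧ (∀ i, 0 < Bm (f i) N) ∧
      Y ^ K + Fintype.card I * (K + 1) + Y ≤ (N - 1) / 2 ∧ 4 / ε < (N : ℝ) - 1 := by
    have e1 : ∀ᶠ N : ℕ in atTop, tau f t N ≤ η := (tau_tendsto hS t).eventually_le_const hη0
    have e2 : ∀ᶠ N : ℕ in atTop, ∀ i, 0 < Bm (f i) N :=
      eventually_all.2 fun i => (hS.inf i).eventually_gt_atTop 0
    have e3 : ∀ᶠ N : ℕ in atTop, Y ^ K + Fintype.card I * (K + 1) + Y ≤ (N - 1) / 2 := by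
      filter_upwards [eventually_ge_atTop (2 * (Y ^ K + Fintype.card I * (K + 1) + Y) + 1)] with N hN
      omega
    have e4 : ∀ᶠ N : ℕ in atTop, 4 / ε < (N : ℝ) - 1 := by
      have := tendsto_natCast_atTop_atTop (R := ℝ)
      filter_upwards [this.eventually_gt_atTop (4 / ε + 1)] with N hN
      linarith
    filter_upwards [e1, e2, e3, e4] with N h1 h2 h3 h4
    exact ⟨h1, h2, h3, h4⟩
  obtain ⟨N₀, hN₀⟩ := eventually_atTop.1 hev
  refine ⟨max N₀ 1, fun N hN => ?_⟩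
  obtain ⟨hτ, hB, hbig, hNε⟩ := hN₀ N ((le_max_left _ _).trans hN)
  have hN1 : 1 ≤ N := (le_max_right _ _).trans hN
  obtain ⟨H, hH⟩ : ∃ H : ℕ, H = (N - 1) / 2 := ⟨_, rfl⟩
  rw [← hH] at hbig
  have hYpos : 1 ≤ Y := by omega
  have hH1 : 1 ≤ H := by omega
  obtain ⟨y, hy1, hy2⟩ := exists_root hK1 H
  have hyY : Y ≤ y := by
    by_contra hcon
    push Not at hcon
    have : (y + 1) ^ K ≤ Y ^ K := Nat.pow_le_pow_left (by omega) _
    omega
  have hyH : y ≤ H := (Nat.le_self_pow (by omega) y).trans hy1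
  have hyN : y ≤ N := by omega
  have hCy : C ≤ y + 1 := by omega
  have hCH : C * H ≤ (y + 1) ^ (K + 1) := by
    rw [pow_succ, mul_comm]
    exact Nat.mul_le_mul hy2.le hCy
  have hNle : N ≤ (y + 1) ^ (K + 1) := by
    refine le_trans ?_ hCH
    have h1 : N ≤ 4 * H := by omega
    have h2 : 4 ≤ C := by omega
    exact h1.trans (Nat.mul_le_mul_right H h2)
  have hLi : ∀ i, (a i).natAbs * (2 * H + 1) + (b i).natAbs ≤ (y + 1) ^ (K + 1) := by
    intro i
    refine le_trans ?_ hCH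
    have h1 := hCi i
    calc (a i).natAbs * (2 * H + 1) + (b i).natAbs ≤ (a i).natAbs * (3 * H) + (b i).natAbs * H := by
          refine Nat.add_le_add (Nat.mul_le_mul_left _ (by omega)) ?_
          exact Nat.le_mul_of_pos_right _ hH1
      _ = (3 * (a i).natAbs + (b i).natAbs) * H := by ring
      _ ≤ C * H := Nat.mul_le_mul_right H h1
  have hτ0 := tau_nonneg f t N
  have hOk : (Dd a b f t σ N h₀ y H).Ok K := by
    refine ⟨?_, ?_, hσ, ?_, ?_, ?_, ?_, hy1, ?_⟩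
    · intro p hp
      exact (mem_filter.1 hp).2
    · intro p hp
      exact (mem_Ioc.1 (mem_filter.1 hp).1).2
    · intro p hp c
      have hp1 : 1 ≤ p := (mem_filter.1 hp).2.one_lt.le
      refine (Zf_abs a b (wt f t N) _ hp1 c).trans ?_
      have h1 : ∑ i, |wt f t N i p| ≤ tau f t N := sum_le_sum fun i _ => wt_abs hS.le t N i p
      refine h1.trans (hτ.trans (le_trans ?_ hη1))
      nlinarith
    · intro p hp _
      have hpp := (mem_filter.1 hp).2
      have hph : h₀ < p := (mem_Ioc.1 (mem_filter.1 hp).1).1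
      refine Zf_mean hpp (wt f t N) _ fun i hd => ?_
      have h1 := Nat.le_of_dvd (by have := hS.ne i; omega) (Int.natCast_dvd.1 hd)
      have := ha' i
      omega
    · show |VP (Zf a b (wt f t N) ((H : ℤ) + 1)) ((Ioc h₀ y).filter Nat.Prime) - σ ^ 2| ≤ σ ^ 2 / (K + 1)
      rw [hσ2]
      refine (var_one hS.le hS.dis t (by omega : 1 ≤ y) hyN hNle _ hS.ne ha' hdet hB).trans ?_
      rw [← hσ2]
      refine le_trans ?_ hη2
      have h1 : tau f t N ^ 2 ≤ η := by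
        rw [pow_two]
        calc tau f t N * tau f t N ≤ η * 1 := mul_le_mul hτ (hτ.trans hη3) hτ0 hη0.le
          _ = η := mul_one _
      have h2 : (h₀ : ℝ) + 2 * ((K + 1 : ℕ) : ℝ) + 2 ≤ L := by
        rw [hL]
        have : (0 : ℝ) ≤ h₀ := Nat.cast_nonneg _
        have : (0 : ℝ) ≤ ((K + 1 : ℕ) : ℝ) := Nat.cast_nonneg _
        linarith
      exact mul_le_mul h1 h2 (by positivity) hη0.le
    · show K ≤ y
      omega
    · refine Dd_near hS t hσ (by omega : 1 ≤ y) hyN hNle hLi ?_ (by positivity) ?_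
      · have h1 : tau f t N * (2 * h₀ + 3 * ((K + 1 : ℕ) : ℝ)) ≤ η * L := by
          refine mul_le_mul hτ ?_ (by positivity) hη0.le
          rw [hL]
          linarith
        refine h1.trans (hη1.trans (le_of_eq ?_))
        ring
      · have h1 : Fintype.card I * (K + 1) ≤ 2 * H + 1 := by omega
        have h2 : (Fintype.card I : ℝ) * ((K : ℝ) + 1) ≤ 2 * H + 1 := by exact_mod_cast h1
        rw [one_div, ← div_eq_inv_mul, le_div_iff₀ hK0]
        exact h2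
  have hmain := hk₀ _ (hOk.mono hKk)
  have e1 : (Dd a b f t σ N h₀ y H).H = H := rfl
  rw [e1, Dd_char a b f t hσ, hσ2] at hmain
  rw [dist_eq_norm]
  -- from `2H+1` to `N`
  have hdiff : ‖(∑ n ∈ Icc 1 N, Gn a b f t N ((n : ℕ) : ℤ)) / (N : ℂ) -
      (∑ m ∈ Icc 1 (2 * H + 1), Gn a b f t N ((m : ℕ) : ℤ)) / ((2 * H + 1 : ℕ) : ℂ)‖ < ε / 2 := by
    rcases (by omega : N = 2 * H + 1 ∨ N = (2 * H + 1) + 1) with h1 | h1
    · rw [← h1, sub_self, norm_zero]
      exact half_pos hε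
    · have h2 := avg_add (F := fun n : ℕ => Gn a b f t N ((n : ℕ) : ℤ))
        (fun n => (Gn_norm a b f t N _).le) (2 * H + 1) (by omega)
      rw [← h1] at h2
      refine lt_of_le_of_lt h2 ?_
      have h3 : ((2 * H + 1 : ℕ) : ℝ) = (N : ℝ) - 1 := by
        rw [h1]
        push_cast
        ring
      rw [h3]
      have h4 : 0 < (N : ℝ) - 1 := lt_trans (by positivity) hNε
      rw [div_lt_iff₀ h4]
      rw [div_lt_iff₀ hε] at hNε
      linarith
  calc ‖(∑ n ∈ Icc 1 N, Gn a b f t N ((n : ℕ) : ℤ)) / (N : ℂ) -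
      ((Real.exp (-((∑ i, t i ^ 2) / 2)) : ℝ) : ℂ)‖ ≤
      ‖(∑ n ∈ Icc 1 N, Gn a b f t N ((n : ℕ) : ℤ)) / (N : ℂ) -
      (∑ m ∈ Icc 1 (2 * H + 1), Gn a b f t N ((m : ℕ) : ℤ)) / ((2 * H + 1 : ℕ) : ℂ)‖ +
      ‖(∑ m ∈ Icc 1 (2 * H + 1), Gn a b f t N ((m : ℕ) : ℤ)) / ((2 * H + 1 : ℕ) : ℂ) -
      ((Real.exp (-((∑ i, t i ^ 2) / 2)) : ℝ) : ℂ)‖ := norm_sub_le_norm_sub_add_norm_sub _ _ _
    _ < ε / 2 + ε / 2 := add_lt_add_of_lt_of_le hdiff hmain
    _ = ε := by ring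

end Pool.Agent.K7.H69.EK
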