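import Pool.Agent.K7.H69.EK.Rel

/-!
The joint normal law of additive functions at linear forms, relative to an almost translation invariant
set: from characteristic functions to sets.
-/

set_option autoImplicit false

namespace Pool.Agent.K7.H69.EK

open Finset hiding box
open Filter Topology MeasureTheory ProbabilityTheory WithLp
open scoped ComplexConjugate ENNReal RealInnerProductSpace

variable {I : Type} [Fintype I] {a b : I → ℤ} {f : I → ℕ → ℝ}

/-- the empirical measure -/
noncomputable def emp (S : Finset ℕ) (x : ℕ → EuclideanSpace ℝ I) : Measure (EuclideanSpace ℝ I) :=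
  ((S.card : ℝ≥0∞))⁻¹ • ∑ n ∈ S, Measure.dirac (x n)

theorem emp_prob {S : Finset ℕ} (hS : S.Nonempty) (x : ℕ → EuclideanSpace ℝ I) :
    IsProbabilityMeasure (emp S x) := by
  constructor
  unfold emp
  have h0 : (S.card : ℝ≥0∞) ≠ 0 := by
    have := hS.card_pos
    exact_mod_cast this.ne'
  rw [Measure.smul_apply, Measure.finsetSum_apply]
  simp only [measure_univ, sum_const, nsmul_eq_mul, mul_one, smul_eq_mul]
  exact ENNReal.inv_mul_cancel h0 (ENNReal.natCast_ne_top _)

theorem emp_char (S : Finset ℕ) (x : ℕ → EuclideanSpace ℝ I) (t : EuclideanSpace ℝ I) :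
    charFun (emp S x) t = (∑ n ∈ S, Complex.exp (⟪x n, t⟫ * Complex.I)) / (S.card : ℂ) := by
  rw [charFun_apply]
  unfold emp
  rw [integral_smul_measure, integral_finsetSum_measure]
  · simp only [integral_dirac]
    rw [ENNReal.toReal_inv, ENNReal.toReal_natCast, Complex.real_smul]
    push_cast
    rw [div_eq_inv_mul]
  · intro n _
    exact integrable_dirac (by finiteness)

open scoped Classical in
theorem emp_apply {S : Finset ℕ} (x : ℕ → EuclideanSpace ℝ I) (E : Set (EuclideanSpace ℝ I)) :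
    (emp S x E).toReal = ((S.filter (fun n => x n ∈ E)).card : ℝ) / S.card := by
  unfold emp
  rw [Measure.smul_apply, Measure.finsetSum_apply]
  have h1 : ∀ n ∈ S, Measure.dirac (x n) E = if x n ∈ E then (1 : ℝ≥0∞) else 0 := by
    intro n _
    rw [Measure.dirac_apply]
    unfold Set.indicator
    rfl
  rw [sum_congr rfl h1, ← sum_filter, sum_const, nsmul_eq_mul, mul_one, smul_eq_mul,
    ENNReal.toReal_mul, ENNReal.toReal_inv, ENNReal.toReal_natCast, ENNReal.toReal_natCast,
    div_eq_inv_mul]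

open scoped Classical in
/-- the indicator function -/
noncomputable def ic (P : ℕ → Prop) (n : ℕ) : ℂ := if P n then 1 else 0

lemma ic_norm (P : ℕ → Prop) (n : ℕ) : ‖ic P n‖ ≤ 1 := by
  unfold ic
  split_ifs <;> simp

open scoped Classical in
theorem av_ic (P : ℕ → Prop) (N : ℕ) (G : ℕ → ℂ) :
    av N (fun n => ic P n * G n) = (∑ n ∈ (Icc 1 N).filter P, G n) / (N : ℂ) := by
  unfold av ic
  congr 1
  rw [sum_filter]
  refine sum_congr rfl fun n _ => ?_
  by_cases h : P n
  · simp [h]
  · simp [h]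

/-- the standard normal law on `ℝ^I` -/
noncomputable def gam (I : Type) [Fintype I] : Measure (I → ℝ) := Measure.pi fun _ => gaussianReal 0 1

open scoped Classical in
/-- **The relative joint normal law.** -/
theorem law (hS : Sys a b f) {P : ℕ → Prop} {q : ℕ} (hq : 1 ≤ q) (hnull : Null (ic P) q) {c : ℝ}
    (hc : Tendsto (fun N : ℕ => (((Icc 1 N).filter P).card : ℝ) / N) atTop (𝓝 c)) (E : Set (I → ℝ))
    (hE : gam I (frontier E) = 0) :
    Tendsto (fun N : ℕ => (((Icc 1 N).filter (fun n : ℕ => P n ∧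
      (fun i => Xn a b f N (n : ℤ) i) ∈ E)).card : ℝ) / N) atTop (𝓝 (c * (gam I E).toReal)) := by
  have hc0 : 0 ≤ c := ge_of_tendsto' hc fun N => by positivity
  rcases eq_or_lt_of_le hc0 with h0 | h0
  · -- density zero
    rw [← h0, zero_mul]
    rw [← h0] at hc
    refine squeeze_zero (fun N => by positivity) (fun N => ?_) hc
    refine div_le_div_of_nonneg_right ?_ (Nat.cast_nonneg _)
    have : ((Icc 1 N).filter (fun n : ℕ => P n ∧ (fun i => Xn a b f N (n : ℤ) i) ∈ E)).card ≤
        ((Icc 1 N).filter P).card := card_le_card (by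
      intro n hn
      rw [mem_filter] at hn ⊢
      exact ⟨hn.1, hn.2.1⟩)
    exact_mod_cast this
  -- positive density
  have hcR : Tendsto (fun N => av N (ic P)) atTop (𝓝 (c : ℂ)) := by
    have h1 := (Complex.continuous_ofReal.tendsto c).comp hc
    refine h1.congr fun N => ?_
    have h2 := av_ic P N (fun _ => 1)
    simp only [mul_one, sum_const, nsmul_eq_mul] at h2
    show ((((((Icc 1 N).filter P).card : ℝ) / N : ℝ)) : ℂ) = av N (ic P)
    have h3 : av N (ic P) = av N (fun n => ic P n) := rfl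
    rw [h3, h2]
    push_cast
    rfl
  have hcc : (c : ℂ) ≠ 0 := by exact_mod_cast h0.ne'
  -- the measures
  obtain ⟨x, hx⟩ : ∃ x : ℕ → ℕ → EuclideanSpace ℝ I, x = fun (N n : ℕ) =>
      toLp 2 (fun i => Xn a b f N (n : ℤ) i) := ⟨_, rfl⟩
  obtain ⟨S, hSd⟩ : ∃ S : ℕ → Finset ℕ, S = fun N => (Icc 1 N).filter P := ⟨_, rfl⟩
  obtain ⟨ν, hν⟩ : ∃ ν : ℕ → ProbabilityMeasure (EuclideanSpace ℝ I), ν = fun N =>
      if h : (S N).Nonempty then ⟨emp (S N) (x N), emp_prob h (x N)⟩ else
        ⟨Measure.dirac 0, inferInstance⟩ := ⟨_, rfl⟩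
  have hνe : ∀ N, (S N).Nonempty → (ν N : Measure (EuclideanSpace ℝ I)) = emp (S N) (x N) := by
    intro N h
    rw [hν]
    simp only [dif_pos h]
    rfl
  have hne : ∀ᶠ N in atTop, (S N).Nonempty := by
    filter_upwards [hc.eventually_const_lt h0] with N hN
    rw [← card_pos]
    by_contra hcon
    push Not at hcon
    have h2 : ((Icc 1 N).filter P).card = 0 := by
      rw [hSd] at hcon
      simpa using hcon
    rw [h2] at hN
    simp at hN
  -- convergence of the characteristic functions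
  obtain ⟨m₀, hm₀⟩ : ∃ m₀ : ProbabilityMeasure (EuclideanSpace ℝ I),
      (m₀ : Measure (EuclideanSpace ℝ I)) = stdGaussian (EuclideanSpace ℝ I) :=
    ⟨⟨stdGaussian (EuclideanSpace ℝ I), inferInstance⟩, rfl⟩
  have hlevy : Tendsto ν atTop (𝓝 m₀) := by
    refine ProbabilityMeasure.tendsto_of_tendsto_charFun fun t => ?_
    rw [hm₀]
    have h1 := rel hS (fun i => t i) (ic_norm P) hq hnull hcR
    have h2 := h1.div hcR hcc
    have h3 : (c : ℂ) * (mu (fun i => t i) : ℂ) / (c : ℂ) = charFun (stdGaussian (EuclideanSpace ℝ I)) t := by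
      rw [charFun_stdGaussian, mul_div_cancel_left₀ _ hcc]
      unfold mu
      rw [Complex.ofReal_exp]
      congr 1
      rw [EuclideanSpace.norm_eq, ← Complex.ofReal_pow, Real.sq_sqrt (sum_nonneg fun i _ => sq_nonneg _)]
      push_cast
      have h4 : ∀ i, ((‖t i‖ : ℝ) : ℂ) ^ 2 = ((t i : ℝ) : ℂ) ^ 2 := by
        intro i
        rw [← Complex.ofReal_pow, Real.norm_eq_abs, sq_abs, Complex.ofReal_pow]
      simp only [h4]
      ring
    rw [h3] at h2
    refine h2.congr' ?_
    filter_upwards [hne, eventually_ge_atTop 1] with N hN hN1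
    rw [hνe N hN, emp_char]
    have hNc : (N : ℂ) ≠ 0 := by exact_mod_cast (by omega : N ≠ 0)
    have hSc : ((S N).card : ℂ) ≠ 0 := by exact_mod_cast hN.card_pos.ne'
    have h5 : av N (ic P) = ((S N).card : ℂ) / N := by
      have h6 := av_ic P N (fun _ => 1)
      simp only [mul_one, sum_const, nsmul_eq_mul] at h6
      rw [hSd]
      exact h6
    have h6 : av N (fun n => ic P n * Gn a b f (fun i => t i) N ((n : ℕ) : ℤ)) =
        (∑ n ∈ S N, Complex.exp (⟪x N n, t⟫ * Complex.I)) / (N : ℂ) := by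
      rw [av_ic, hSd]
      congr 1
      refine sum_congr rfl fun n _ => ?_
      unfold Gn
      congr 3
      rw [hx, PiLp.inner_apply]
      refine sum_congr rfl fun i _ => ?_
      simp
    show av N (fun n => ic P n * Gn a b f (fun i => t i) N ((n : ℕ) : ℤ)) / av N (ic P) = _
    rw [h6, h5, div_div_div_cancel_right₀ hNc]
  -- the set
  obtain ⟨h, hh⟩ : ∃ h : EuclideanSpace ℝ I ≃ₜ (I → ℝ), ∀ y, h y = ofLp y :=
    ⟨(PiLp.continuousLinearEquiv 2 ℝ (fun _ : I => ℝ)).toHomeomorph, fun y => rfl⟩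
  have hpre : ∀ F : Set (I → ℝ), stdGaussian (EuclideanSpace ℝ I) (h ⁻¹' F) = gam I F := by
    intro F
    rw [← map_pi_eq_stdGaussian]
    have h1 : (Measure.pi (fun _ : I => gaussianReal 0 1)).map (toLp 2) =
        (Measure.pi (fun _ : I => gaussianReal 0 1)).map (MeasurableEquiv.toLp 2 (I → ℝ)) := rfl
    rw [h1, MeasurableEquiv.map_apply]
    unfold gam
    congr 1
    ext y
    rw [Set.mem_preimage, Set.mem_preimage, hh]
    rfl
  have hfr : stdGaussian (EuclideanSpace ℝ I) (frontier (h ⁻¹' E)) = 0 := by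
    rw [← h.preimage_frontier, hpre]
    exact hE
  have hport := ProbabilityMeasure.tendsto_measure_of_null_frontier_of_tendsto' hlevy
    (E := h ⁻¹' E) (by rw [hm₀]; exact hfr)
  rw [hm₀, hpre] at hport
  have hport2 : Tendsto (fun N => ((ν N : Measure (EuclideanSpace ℝ I)) (h ⁻¹' E)).toReal) atTop
      (𝓝 (gam I E).toReal) := by
    have h0 : gam I E ≠ ∞ := by
      rw [← hpre]
      exact measure_ne_top _ _
    exact (ENNReal.tendsto_toReal h0).comp hport
  have hfin := hc.mul hport2
  refine hfin.congr' ?_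
  filter_upwards [hne] with N hN
  rw [hνe N hN, emp_apply]
  have hSc : ((S N).card : ℝ) ≠ 0 := by exact_mod_cast hN.card_pos.ne'
  have h1 : ((S N).filter (fun n => x N n ∈ h ⁻¹' E)) =
      (Icc 1 N).filter (fun n : ℕ => P n ∧ (fun i => Xn a b f N (n : ℤ) i) ∈ E) := by
    rw [hSd, filter_filter]
    refine filter_congr fun n _ => ?_
    rw [Set.mem_preimage, hh, hx]
  rw [h1]
  have h2 : (((Icc 1 N).filter P).card : ℝ) = (S N).card := by rw [hSd]
  rw [h2]
  field_simp

end Pool.Agent.K7.H69.EK
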