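import Pool.Agent.H426R3.CL.Loc
import Pool.Agent.K7.H69.EK.Law

/-!
The joint normal law of additive functions at linear forms on the sets invariant under the `3x+1` map.
-/

set_option autoImplicit false

namespace Pool.Agent.K7.H69.EK

open Finset hiding box
open Filter Topology MeasureTheory ProbabilityTheory
open Pool.Agent.H499R2.ND (cnt cnt_eq Ci)
open Pool.Agent.H499R2.CO (Tz)

/-- almost invariance of the indicator of an invariant set -/
theorem null_inv {s : ℤ} (hs : s = 1 ∨ s = -1) {S : Set ℤ} (h : ∀ x : ℤ, x ∈ S ↔ Ci x ∈ S) :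
    Null (ic (fun n : ℕ => s * (n : ℤ) ∈ S)) 1 := by
  classical
  unfold Null
  rw [Metric.tendsto_atTop]
  intro ε hε
  obtain ⟨N₀, hN₀⟩ := Pool.Agent.H426R3.CLoc.loc_count hs (F := fun x : ℤ => x ∈ S)
    (fun t x y hxy => propext (Pool.Agent.H426R3.CLoc.inv_closed h t x y hxy)) (half_pos hε)
  refine ⟨max N₀ 1, fun N hN => ?_⟩
  have h1 := hN₀ N ((le_max_left _ _).trans hN)
  have hN0 : (0 : ℝ) < N := by
    have : 1 ≤ N := (le_max_right _ _).trans hN
    exact_mod_cast this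
  have h2 : bad (ic (fun n : ℕ => s * (n : ℤ) ∈ S)) 1 N ≤
      ((Icc 1 N).filter (fun n : ℕ => (s * (n : ℤ) ∈ S) ≠ (s * ((n + 1 : ℕ) : ℤ) ∈ S))).card := by
    unfold bad
    refine card_le_card fun n hn => ?_
    rw [mem_filter] at hn ⊢
    refine ⟨hn.1, fun he => hn.2 ?_⟩
    unfold ic
    have he' : (s * (n : ℤ) ∈ S) ↔ (s * ((n + 1 : ℕ) : ℤ) ∈ S) := by rw [he]
    by_cases h3 : s * (n : ℤ) ∈ S
    · rw [if_pos h3, if_pos (he'.1 h3)]
    · rw [if_neg h3, if_neg (fun h4 => h3 (he'.2 h4))]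
  rw [Real.dist_eq, sub_zero, abs_of_nonneg (by positivity), div_lt_iff₀ hN0]
  have h3 : (bad (ic (fun n : ℕ => s * (n : ℤ) ∈ S)) 1 N : ℝ) ≤ ε / 2 * N := by
    refine le_trans ?_ h1
    exact_mod_cast h2
  nlinarith

/-- the same in a residue class -/
theorem null_class {P : ℕ → Prop} (h : Null (ic P) 1) (q r : ℕ) :
    Null (ic (fun n : ℕ => n % q = r % q ∧ P n)) q := by
  classical
  have h1 := h.mul q
  rw [mul_one] at h1
  unfold Null at h1 ⊢
  refine squeeze_zero (fun N => by positivity) (fun N => ?_) h1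
  refine div_le_div_of_nonneg_right ?_ (Nat.cast_nonneg _)
  have h2 : bad (ic (fun n : ℕ => n % q = r % q ∧ P n)) q N ≤ bad (ic P) q N := by
    unfold bad
    refine card_le_card fun n hn => ?_
    rw [mem_filter] at hn ⊢
    refine ⟨hn.1, fun he => hn.2 ?_⟩
    unfold ic at he ⊢
    beta_reduce
    rw [Nat.add_mod_right]
    by_cases h3 : n % q = r % q
    · by_cases h4 : P n
      · by_cases h5 : P (n + q)
        · rw [if_pos ⟨h3, h5⟩, if_pos ⟨h3, h4⟩]
        · rw [if_pos h4, if_neg h5] at he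
          exact absurd he (by norm_num)
      · by_cases h5 : P (n + q)
        · rw [if_neg h4, if_pos h5] at he
          exact absurd he (by norm_num)
        · rw [if_neg (fun hh => h5 hh.2), if_neg (fun hh => h4 hh.2)]
    · rw [if_neg (fun hh => h3 hh.1), if_neg (fun hh => h3 hh.1)]
  exact_mod_cast h2

open scoped Classical in
/-- **The joint normal law on invariant sets.** -/
theorem inv_law {s : ℤ} (hs : s = 1 ∨ s = -1) {S : Set ℤ} (h : ∀ x : ℤ, x ∈ S ↔ Ci x ∈ S) :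
    ∃ δ : ℝ, (0 < δ ↔ ∃ x ∈ S, 0 < s * x) ∧ (δ = 1 ↔ ∀ x, 0 < s * x → x ∈ S) ∧
      ∀ (I : Type) [Fintype I] (a b : I → ℤ) (f : I → ℕ → ℝ), Sys a b f → ∀ q r : ℕ, 1 ≤ q →
      ∀ E : Set (I → ℝ), gam I (frontier E) = 0 → Tendsto (fun N : ℕ =>
        (((Icc 1 N).filter (fun n : ℕ => (n % q = r % q ∧ s * (n : ℤ) ∈ S) ∧
          (fun i => Xn a b f N (s * (n : ℤ)) i) ∈ E)).card : ℝ) / N) atTop
        (𝓝 (δ / q * (gam I E).toReal)) := by
  obtain ⟨δ, h1, h2, h3⟩ := Pool.Agent.H426R3.CLoc.inv_dens hs h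
  refine ⟨δ, h1, h2, ?_⟩
  intro I _ a b f hS q r hq E hE
  have hs0 : s ≠ 0 := by rcases hs with rfl | rfl <;> norm_num
  have hS' : Sys (fun i => s * a i) b f := by
    refine ⟨fun i => mul_ne_zero hs0 (hS.ne i), hS.le, fun i j hij he p => hS.dis i j hij ?_ p, hS.inf⟩
    have : s * (a i * b j) = s * (a j * b i) := by linear_combination he
    exact mul_left_cancel₀ hs0 this
  obtain ⟨P, hP⟩ : ∃ P : ℕ → Prop, P = fun n : ℕ => n % q = r % q ∧ s * (n : ℤ) ∈ S := ⟨_, rfl⟩
  have hc := h3 q r (by omega)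
  rw [← hP] at hc
  have hc' : Tendsto (fun N : ℕ => (((Icc 1 N).filter P).card : ℝ) / N) atTop (𝓝 (δ / q)) := by
    refine hc.congr fun N => ?_
    rw [cnt_eq]
  have hnull : Null (ic P) q := by
    rw [hP]
    exact null_class (null_inv hs h) q r
  have hl := law hS' hq hnull hc' E hE
  refine hl.congr fun N => ?_
  have e : ∀ n : ℕ, (fun i => Xn (fun i => s * a i) b f N (n : ℤ) i) =
      (fun i => Xn a b f N (s * (n : ℤ)) i) := by
    intro n
    funext i
    unfold Xn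
    have : s * a i * (n : ℤ) + b i = a i * (s * (n : ℤ)) + b i := by ring
    rw [this]
  congr 2
  refine congrArg card (filter_congr fun n _ => ?_)
  rw [e n, hP]

end Pool.Agent.K7.H69.EK
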