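import Mathlib

/-!
Functions which are almost invariant under translation are asymptotically independent of mixing functions:
the general lemmas on averages.
-/

set_option autoImplicit false

namespace Pool.Agent.K7.H69.EK

open Finset Filter Topology
open scoped ComplexConjugate

/-- the average over `1, ..., N` -/
noncomputable def av (N : ℕ) (F : ℕ → ℂ) : ℂ := (∑ n ∈ Icc 1 N, F n) / (N : ℂ)

theorem av_norm_le {N : ℕ} {F : ℕ → ℂ} {B : ℝ} (hB : 0 ≤ B) (h : ∀ n ∈ Icc 1 N, ‖F n‖ ≤ B) :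
    ‖av N F‖ ≤ B := by
  unfold av
  rw [norm_div, Complex.norm_natCast]
  rcases Nat.eq_zero_or_pos N with hN | hN
  · subst hN
    simpa using hB
  · have hN0 : (0 : ℝ) < N := by exact_mod_cast hN
    rw [div_le_iff₀ hN0]
    refine (norm_sum_le _ _).trans ((sum_le_sum h).trans ?_)
    rw [sum_const, Nat.card_Icc, nsmul_eq_mul, Nat.add_sub_cancel, mul_comm]

theorem av_norm_le' (N : ℕ) (F : ℕ → ℂ) : ‖av N F‖ ≤ (∑ n ∈ Icc 1 N, ‖F n‖) / N := by
  unfold av
  rw [norm_div, Complex.norm_natCast]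
  exact div_le_div_of_nonneg_right (norm_sum_le _ _) (Nat.cast_nonneg _)

theorem av_add (N : ℕ) (F G : ℕ → ℂ) : av N (fun n => F n + G n) = av N F + av N G := by
  unfold av
  rw [sum_add_distrib, add_div]

theorem av_sub (N : ℕ) (F G : ℕ → ℂ) : av N (fun n => F n - G n) = av N F - av N G := by
  unfold av
  rw [sum_sub_distrib, sub_div]

theorem av_mul (N : ℕ) (c : ℂ) (F : ℕ → ℂ) : av N (fun n => c * F n) = c * av N F := by
  unfold av
  rw [← mul_sum, mul_div_assoc]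

theorem av_sum {ι : Type*} (s : Finset ι) (N : ℕ) (F : ι → ℕ → ℂ) :
    av N (fun n => ∑ i ∈ s, F i n) = ∑ i ∈ s, av N (F i) := by
  unfold av
  rw [sum_comm, sum_div]

theorem av_const {N : ℕ} (hN : 1 ≤ N) (c : ℂ) : av N (fun _ => c) = c := by
  unfold av
  have hNc : (N : ℂ) ≠ 0 := by exact_mod_cast (by omega : N ≠ 0)
  rw [sum_const, Nat.card_Icc, nsmul_eq_mul, Nat.add_sub_cancel, mul_div_cancel_left₀ _ hNc]

/-- translation -/
theorem av_shift {F : ℕ → ℂ} (hF : ∀ n, ‖F n‖ ≤ 1) (N g : ℕ) :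
    ‖av N (fun n => F (n + g)) - av N F‖ ≤ 2 * g / N := by
  have key : ∀ g : ℕ, ‖∑ n ∈ Icc 1 N, F (n + g) - ∑ n ∈ Icc 1 N, F n‖ ≤ 2 * g := by
    intro g
    induction g with
    | zero => simp
    | succ g ih =>
      have h1 : ∀ G : ℕ → ℂ, ∑ n ∈ Icc 1 N, G n = ∑ k ∈ range N, G (k + 1) := by
        intro G
        rw [Finset.range_eq_Ico, Finset.sum_Ico_add' G 0 N 1, zero_add]
        rfl
      have h2 : ∑ n ∈ Icc 1 N, F (n + (g + 1)) - ∑ n ∈ Icc 1 N, F (n + g) = F (N + 1 + g) - F (1 + g) := by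
        rw [h1, h1, ← sum_sub_distrib]
        have h3 := Finset.sum_range_sub (fun k => F (k + 1 + g)) N
        rw [zero_add] at h3
        rw [← h3]
        refine sum_congr rfl fun k _ => ?_
        congr 2
        omega
      have h3 : ‖∑ n ∈ Icc 1 N, F (n + (g + 1)) - ∑ n ∈ Icc 1 N, F (n + g)‖ ≤ 2 := by
        rw [h2]
        refine (norm_sub_le _ _).trans ?_
        linarith [hF (N + 1 + g), hF (1 + g)]
      refine (norm_sub_le_norm_sub_add_norm_sub _ (∑ n ∈ Icc 1 N, F (n + g)) _).trans ?_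
      push_cast
      linarith
  unfold av
  rw [← sub_div, norm_div, Complex.norm_natCast]
  exact div_le_div_of_nonneg_right (key g) (Nat.cast_nonneg _)

open scoped Classical in
/-- the number of changes under the translation by `g` -/
noncomputable def bad (R : ℕ → ℂ) (g N : ℕ) : ℕ := ((Icc 1 N).filter (fun n => R (n + g) ≠ R n)).card

/-- almost invariance under the translation by `g` -/
def Null (R : ℕ → ℂ) (g : ℕ) : Prop := Tendsto (fun N => (bad R g N : ℝ) / N) atTop (𝓝 0)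

theorem bad_add (R : ℕ → ℂ) (g g' N : ℕ) : bad R (g + g') N ≤ bad R g N + (bad R g' N + g) := by
  classical
  unfold bad
  have h1 : (Icc 1 N).filter (fun n => R (n + (g + g')) ≠ R n) ⊆
      (Icc 1 N).filter (fun n => R (n + g) ≠ R n) ∪
      (Icc 1 N).filter (fun n => R (n + g + g') ≠ R (n + g)) := by
    intro n hn
    rw [mem_filter] at hn
    rw [mem_union, mem_filter, mem_filter]
    by_cases h : R (n + g) = R n
    · right
      refine ⟨hn.1, ?_⟩
      rw [h, add_assoc]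
      exact hn.2
    · left
      exact ⟨hn.1, h⟩
  refine (card_le_card h1).trans ((card_union_le _ _).trans (Nat.add_le_add_left ?_ _))
  have h2 : ((Icc 1 N).filter (fun n => R (n + g + g') ≠ R (n + g))).card ≤
      ((Icc 1 N).filter (fun n => R (n + g') ≠ R n) ∪ Ioc N (N + g)).card := by
    refine card_le_card_of_injOn (fun n => n + g) ?_ ?_
    · intro n hn
      rw [mem_coe, mem_filter, mem_Icc] at hn
      rw [mem_coe, mem_union, mem_filter, mem_Icc, mem_Ioc]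
      beta_reduce
      rcases le_or_gt (n + g) N with h | h
      · left
        exact ⟨⟨by omega, h⟩, hn.2⟩
      · right
        exact ⟨h, by omega⟩
    · intro n _ m _ h
      simpa using h
  refine h2.trans ((card_union_le _ _).trans ?_)
  rw [Nat.card_Ioc]
  omega

theorem Null.add {R : ℕ → ℂ} {g g' : ℕ} (h : Null R g) (h' : Null R g') : Null R (g + g') := by
  unfold Null at h h' ⊢
  have h0 : Tendsto (fun N : ℕ => (g : ℝ) / N) atTop (𝓝 0) :=
    tendsto_const_nhds.div_atTop tendsto_natCast_atTop_atTop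
  have h1 := h.add (h'.add h0)
  rw [add_zero, add_zero] at h1
  refine squeeze_zero (fun N => by positivity) (fun N => ?_) h1
  rw [← add_div, ← add_div]
  refine div_le_div_of_nonneg_right ?_ (Nat.cast_nonneg _)
  exact_mod_cast bad_add R g g' N

theorem Null.zero (R : ℕ → ℂ) : Null R 0 := by
  unfold Null bad
  simp

theorem Null.mul {R : ℕ → ℂ} {g : ℕ} (h : Null R g) (l : ℕ) : Null R (l * g) := by
  induction l with
  | zero => rw [zero_mul]; exact Null.zero R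
  | succ l ih => rw [Nat.succ_mul]; exact ih.add h

/-- replacing the translate of `R` by `R` -/
theorem av_replace {R G : ℕ → ℂ} (hR : ∀ n, ‖R n‖ ≤ 1) (hG : ∀ n, ‖G n‖ ≤ 1) (N g : ℕ) :
    ‖av N (fun n => R n * G (n + g)) - av N (fun n => R n * G n)‖ ≤ 2 * (bad R g N : ℝ) / N + 2 * g / N := by
  classical
  have h1 : ‖av N (fun n => R n * G (n + g)) - av N (fun n => R (n + g) * G (n + g))‖ ≤
      2 * (bad R g N : ℝ) / N := by
    rw [← av_sub]
    refine (av_norm_le' _ _).trans (div_le_div_of_nonneg_right ?_ (Nat.cast_nonneg _))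
    have h2 : ∀ n ∈ Icc 1 N, ‖R n * G (n + g) - R (n + g) * G (n + g)‖ ≤
        if R (n + g) ≠ R n then 2 else 0 := by
      intro n _
      split_ifs with h
      · rw [← sub_mul, norm_mul]
        have h3 : ‖R n - R (n + g)‖ ≤ 2 := (norm_sub_le _ _).trans (by linarith [hR n, hR (n + g)])
        calc ‖R n - R (n + g)‖ * ‖G (n + g)‖ ≤ 2 * 1 :=
              mul_le_mul h3 (hG _) (norm_nonneg _) (by norm_num)
          _ = 2 := by norm_num
      · push Not at h
        rw [h, sub_self, norm_zero]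
    refine (sum_le_sum h2).trans ?_
    rw [← sum_filter, sum_const, nsmul_eq_mul, mul_comm]
    rfl
  have h2 := av_shift (F := fun n => R n * G n) (fun n => by
    rw [norm_mul]
    calc ‖R n‖ * ‖G n‖ ≤ 1 * 1 := mul_le_mul (hR n) (hG n) (norm_nonneg _) (by norm_num)
      _ = 1 := by norm_num) N g
  exact (norm_sub_le_norm_sub_add_norm_sub _ _ _).trans (add_le_add h1 h2)

/-- Cauchy-Schwarz -/
theorem av_cs {R Z : ℕ → ℂ} (hR : ∀ n, ‖R n‖ ≤ 1) (N : ℕ) :
    ‖av N (fun n => R n * Z n)‖ ^ 2 ≤ (∑ n ∈ Icc 1 N, ‖Z n‖ ^ 2) / N := by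
  rcases Nat.eq_zero_or_pos N with hN | hN
  · subst hN
    simp [av]
  have hN0 : (0 : ℝ) < N := by exact_mod_cast hN
  have h1 : ‖av N (fun n => R n * Z n)‖ ≤ (∑ n ∈ Icc 1 N, ‖Z n‖) / N := by
    refine (av_norm_le' _ _).trans (div_le_div_of_nonneg_right ?_ (Nat.cast_nonneg _))
    refine sum_le_sum fun n _ => ?_
    rw [norm_mul]
    calc ‖R n‖ * ‖Z n‖ ≤ 1 * ‖Z n‖ := mul_le_mul_of_nonneg_right (hR n) (norm_nonneg _)
      _ = ‖Z n‖ := one_mul _
  have h2 : ‖av N (fun n => R n * Z n)‖ ^ 2 ≤ ((∑ n ∈ Icc 1 N, ‖Z n‖) / N) ^ 2 :=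
    pow_le_pow_left₀ (norm_nonneg _) h1 2
  refine h2.trans ?_
  have h3 := sq_sum_le_card_mul_sum_sq (s := Icc 1 N) (f := fun n => ‖Z n‖)
  rw [Nat.card_Icc, Nat.add_sub_cancel] at h3
  rw [div_pow, div_le_div_iff₀ (by positivity) hN0]
  nlinarith

/-- the second moment of the deviation from a real number -/
theorem second_moment {ι : Type*} (s : Finset ι) (c : ℝ) (μ : ℝ) (F : ι → ℕ → ℂ) {N : ℕ} (hN : 1 ≤ N) :
    (∑ n ∈ Icc 1 N, ‖(c : ℂ) * ∑ l ∈ s, F l n - (μ : ℂ)‖ ^ 2) / N =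
      (c ^ 2 * ∑ l ∈ s, ∑ l' ∈ s, av N (fun n => F l n * conj (F l' n)) -
        2 * μ * c * ∑ l ∈ s, av N (F l) + μ ^ 2 : ℂ).re := by
  have hN0 : (0 : ℝ) < N := by exact_mod_cast (by omega : 0 < N)
  have h1 : ∀ n, ((‖(c : ℂ) * ∑ l ∈ s, F l n - (μ : ℂ)‖ ^ 2 : ℝ) : ℂ) =
      (c : ℂ) ^ 2 * ∑ l ∈ s, ∑ l' ∈ s, F l n * conj (F l' n) - (μ : ℂ) * c * ∑ l ∈ s, F l n -
        (μ : ℂ) * c * conj (∑ l ∈ s, F l n) + (μ : ℂ) ^ 2 := by
    intro n
    rw [← sum_mul_sum, ← map_sum, ← Complex.normSq_eq_norm_sq, ← Complex.mul_conj, map_sub, map_mul,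
      Complex.conj_ofReal, Complex.conj_ofReal]
    ring
  have h2 : (((∑ n ∈ Icc 1 N, ‖(c : ℂ) * ∑ l ∈ s, F l n - (μ : ℂ)‖ ^ 2) / N : ℝ) : ℂ) =
      (c : ℂ) ^ 2 * ∑ l ∈ s, ∑ l' ∈ s, av N (fun n => F l n * conj (F l' n)) -
        (μ : ℂ) * c * ∑ l ∈ s, av N (F l) - (μ : ℂ) * c * conj (∑ l ∈ s, av N (F l)) + (μ : ℂ) ^ 2 := by
    have e1 : (((∑ n ∈ Icc 1 N, ‖(c : ℂ) * ∑ l ∈ s, F l n - (μ : ℂ)‖ ^ 2) / N : ℝ) : ℂ) =
        av N (fun n => ((‖(c : ℂ) * ∑ l ∈ s, F l n - (μ : ℂ)‖ ^ 2 : ℝ) : ℂ)) := by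
      unfold av
      rw [Complex.ofReal_div, Complex.ofReal_sum, Complex.ofReal_natCast]
    have e2 : av N (fun n => conj (∑ l ∈ s, F l n)) = conj (av N (fun n => ∑ l ∈ s, F l n)) := by
      unfold av
      rw [map_div₀, map_sum, Complex.conj_natCast]
    rw [e1, funext h1, av_add, av_sub, av_sub, av_mul, av_mul, av_mul, av_const hN, e2, av_sum, av_sum]
    congr 4
    refine sum_congr rfl fun l _ => ?_
    rw [av_sum]
  have h3 := congrArg Complex.re h2
  rw [Complex.ofReal_re] at h3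
  rw [h3]
  simp only [Complex.add_re, Complex.sub_re]
  have e3 : ((μ : ℂ) * c * conj (∑ l ∈ s, av N (F l))).re = ((μ : ℂ) * c * ∑ l ∈ s, av N (F l)).re := by
    rw [← Complex.ofReal_mul, Complex.re_ofReal_mul, Complex.re_ofReal_mul, Complex.conj_re]
  have e4 : (2 * (μ : ℂ) * c * ∑ l ∈ s, av N (F l)).re = 2 * ((μ : ℂ) * c * ∑ l ∈ s, av N (F l)).re := by
    have : (2 * (μ : ℂ) * c * ∑ l ∈ s, av N (F l)) = ((2 : ℝ) : ℂ) * ((μ : ℂ) * c * ∑ l ∈ s, av N (F l)) := by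
      push_cast
      ring
    rw [this, Complex.re_ofReal_mul]
  rw [e3, e4]
  ring

end Pool.Agent.K7.H69.EK
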