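import Pool.Agent.K7.H69.EK.Clt3
import Pool.Agent.K7.H69.EK.Mix

/-!
The joint normal law of additive functions at linear forms, relative to an almost translation invariant
weight.
-/

set_option autoImplicit false

namespace Pool.Agent.K7.H69.EK

open Finset hiding box
open Filter Topology
open scoped ComplexConjugate

variable {I : Type} [Fintype I] {a b : I → ℤ} {f : I → ℕ → ℝ}

theorem Sys.shift (hS : Sys a b f) (g : ℤ) : Sys a (fun i => b i + a i * g) f :=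
  ⟨hS.ne, hS.le, fun i j hij h p => hS.dis i j hij (by linear_combination h) p, hS.inf⟩

theorem Gn_shift (a b : I → ℤ) (f : I → ℕ → ℝ) (t : I → ℝ) (N : ℕ) (n g : ℤ) :
    Gn a b f t N (n + g) = Gn a (fun i => b i + a i * g) f t N n := by
  unfold Gn Xn
  have h : ∀ i, a i * (n + g) + b i = a i * n + (b i + a i * g) := fun i => by ring
  simp only [h]

theorem Sys.two (hS : Sys a b f) {g g' : ℤ} (hne : ∀ i j, a i * b j - a j * b i ≠ a i * a j * (g - g')) :
    Sys (Sum.elim a a) (Sum.elim (fun i => b i + a i * g) (fun i => b i + a i * g')) (Sum.elim f f) := by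
  refine ⟨?_, ?_, ?_, ?_⟩
  · rintro (i | i)
    · exact hS.ne i
    · exact hS.ne i
  · rintro (i | i) p
    · exact hS.le i p
    · exact hS.le i p
  · rintro (i | i) (j | j) hij h p
    · simp only [Sum.elim_inl] at h ⊢
      exact hS.dis i j (fun e => hij (by rw [e])) (by linear_combination h) p
    · exfalso
      simp only [Sum.elim_inl, Sum.elim_inr] at h
      exact hne i j (by linear_combination h)
    · exfalso
      simp only [Sum.elim_inl, Sum.elim_inr] at h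
      exact hne j i (by linear_combination -h)
    · simp only [Sum.elim_inr] at h ⊢
      exact hS.dis i j (fun e => hij (by rw [e])) (by linear_combination h) p
  · rintro (i | i)
    · exact hS.inf i
    · exact hS.inf i

theorem Gn_two (a b : I → ℤ) (f : I → ℕ → ℝ) (t : I → ℝ) (N : ℕ) (n g g' : ℤ) :
    Gn (Sum.elim a a) (Sum.elim (fun i => b i + a i * g) (fun i => b i + a i * g')) (Sum.elim f f)
      (Sum.elim t (fun i => -t i)) N n = Gn a b f t N (n + g) * conj (Gn a b f t N (n + g')) := by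
  rw [Gn_shift, Gn_shift]
  unfold Gn
  rw [← Complex.exp_conj, map_mul, Complex.conj_I, Complex.conj_ofReal, ← Complex.exp_add,
    Fintype.sum_sum_type]
  congr 1
  have h1 : ∑ i, Sum.elim t (fun i => -t i) (Sum.inl i) * Xn (Sum.elim a a)
      (Sum.elim (fun i => b i + a i * g) (fun i => b i + a i * g')) (Sum.elim f f) N n (Sum.inl i) =
      ∑ i, t i * Xn a (fun i => b i + a i * g) f N n i := rfl
  have h2 : ∑ i, Sum.elim t (fun i => -t i) (Sum.inr i) * Xn (Sum.elim a a)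
      (Sum.elim (fun i => b i + a i * g) (fun i => b i + a i * g')) (Sum.elim f f) N n (Sum.inr i) =
      -∑ i, t i * Xn a (fun i => b i + a i * g') f N n i := by
    rw [← sum_neg_distrib]
    refine sum_congr rfl fun i _ => ?_
    show -t i * Xn a (fun i => b i + a i * g') f N n i = _
    ring
  rw [h1, h2]
  push_cast
  ring

/-- the limit -/
noncomputable def mu (t : I → ℝ) : ℝ := Real.exp (-((∑ i, t i ^ 2) / 2))

lemma mu_pos (t : I → ℝ) : 0 < mu t := Real.exp_pos _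

lemma mu_le (t : I → ℝ) : mu t ≤ 1 := by
  unfold mu
  rw [Real.exp_le_one_iff]
  have : 0 ≤ ∑ i, t i ^ 2 := sum_nonneg fun i _ => sq_nonneg _
  linarith

theorem lim1 (hS : Sys a b f) (t : I → ℝ) (g : ℕ) :
    Tendsto (fun N : ℕ => av N (fun n => Gn a b f t N (((n + g : ℕ) : ℕ) : ℤ))) atTop (𝓝 (mu t : ℂ)) := by
  have h := clt (hS.shift (g : ℤ)) t
  refine h.congr fun N => ?_
  unfold av
  congr 1
  refine sum_congr rfl fun n _ => ?_
  rw [← Gn_shift]
  push_cast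
  rfl

theorem lim2 (hS : Sys a b f) (t : I → ℝ) {g g' : ℕ}
    (hne : ∀ i j, a i * b j - a j * b i ≠ a i * a j * ((g : ℤ) - (g' : ℤ))) :
    Tendsto (fun N : ℕ => av N (fun n => Gn a b f t N (((n + g : ℕ) : ℕ) : ℤ) *
      conj (Gn a b f t N (((n + g' : ℕ) : ℕ) : ℤ)))) atTop (𝓝 ((mu t ^ 2 : ℝ) : ℂ)) := by
  have h := clt (hS.two hne) (Sum.elim t (fun i => -t i))
  have e : Real.exp (-((∑ i, Sum.elim t (fun i => -t i) i ^ 2) / 2)) = mu t ^ 2 := by
    unfold mu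
    rw [← Real.exp_nat_mul, Fintype.sum_sum_type]
    congr 1
    simp only [Sum.elim_inl, Sum.elim_inr, neg_sq]
    push_cast
    ring
  rw [e] at h
  refine h.congr fun N => ?_
  unfold av
  congr 1
  refine sum_congr rfl fun n _ => ?_
  rw [Gn_two]
  push_cast
  rfl

theorem lim0 (t : I → ℝ) (a b : I → ℤ) (f : I → ℕ → ℝ) (g : ℕ) :
    Tendsto (fun N : ℕ => av N (fun n => Gn a b f t N (((n + g : ℕ) : ℕ) : ℤ) *
      conj (Gn a b f t N (((n + g : ℕ) : ℕ) : ℤ)))) atTop (𝓝 1) := by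
  refine tendsto_const_nhds.congr' ?_
  filter_upwards [eventually_ge_atTop 1] with N hN
  have h : (fun n : ℕ => Gn a b f t N (((n + g : ℕ) : ℕ) : ℤ) *
      conj (Gn a b f t N (((n + g : ℕ) : ℕ) : ℤ))) = fun _ => (1 : ℂ) := by
    funext n
    rw [Complex.mul_conj, Complex.normSq_eq_norm_sq, Gn_norm]
    simp
  rw [h, av_const hN]

/-- **The relative law.** -/
theorem rel (hS : Sys a b f) (t : I → ℝ) {R : ℕ → ℂ} (hR : ∀ n, ‖R n‖ ≤ 1) {q : ℕ} (hq : 1 ≤ q)
    (hnull : Null R q) {c : ℂ} (hc : Tendsto (fun N => av N R) atTop (𝓝 c)) :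
    Tendsto (fun N => av N (fun n => R n * Gn a b f t N ((n : ℕ) : ℤ))) atTop (𝓝 (c * (mu t : ℂ))) := by
  classical
  obtain ⟨D, hD⟩ : ∃ D : ℕ, D = 1 + ∑ i, ∑ j, (a i * b j - a j * b i).natAbs := ⟨_, rfl⟩
  have hdet : ∀ i j, (a i * b j - a j * b i).natAbs < D := by
    intro i j
    rw [hD]
    have h1 : (a i * b j - a j * b i).natAbs ≤ ∑ j, (a i * b j - a j * b i).natAbs :=
      single_le_sum (f := fun j => (a i * b j - a j * b i).natAbs) (fun _ _ => Nat.zero_le _)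
        (mem_univ j)
    have h2 : ∑ j, (a i * b j - a j * b i).natAbs ≤ ∑ i, ∑ j, (a i * b j - a j * b i).natAbs :=
      single_le_sum (f := fun i => ∑ j, (a i * b j - a j * b i).natAbs) (fun _ _ => Nat.zero_le _)
        (mem_univ i)
    omega
  obtain ⟨E, hE⟩ : ∃ E : ℕ, E = D * q := ⟨_, rfl⟩
  have hED : D ≤ E := by rw [hE]; exact Nat.le_mul_of_pos_right D hq
  have hsep : ∀ l l' : ℕ, l ≠ l' → ∀ i j, a i * b j - a j * b i ≠
      a i * a j * (((l * E : ℕ) : ℤ) - ((l' * E : ℕ) : ℤ)) := by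
    intro l l' hl i j h
    have h1 := hdet i j
    rw [h] at h1
    have h2 : (a i * a j * (((l * E : ℕ) : ℤ) - ((l' * E : ℕ) : ℤ))).natAbs =
        (a i).natAbs * (a j).natAbs * (((l : ℤ) - (l' : ℤ)).natAbs * E) := by
      rw [Int.natAbs_mul, Int.natAbs_mul]
      congr 1
      push_cast
      rw [← sub_mul, Int.natAbs_mul, Int.natAbs_natCast]
    rw [h2] at h1
    have h3 : 1 ≤ (a i).natAbs := by have := hS.ne i; omega
    have h4 : 1 ≤ (a j).natAbs := by have := hS.ne j; omega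
    have h5 : 1 ≤ ((l : ℤ) - (l' : ℤ)).natAbs := by omega
    have h6 : 1 * 1 * (1 * D) ≤ (a i).natAbs * (a j).natAbs * (((l : ℤ) - (l' : ℤ)).natAbs * E) :=
      Nat.mul_le_mul (Nat.mul_le_mul h3 h4) (Nat.mul_le_mul h5 hED)
    omega
  have hnullE : ∀ l : ℕ, Null R (l * E) := by
    intro l
    have h1 := hnull.mul (l * D)
    have h2 : l * E = l * D * q := by rw [hE]; ring
    rw [h2]
    exact h1
  have hμ0 := mu_pos t
  have hμ1 := mu_le t
  rw [Metric.tendsto_atTop]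
  intro ε hε
  -- the number of translates
  obtain ⟨L, hL⟩ : ∃ L : ℕ, 2 / ((ε / 4) ^ 2) < L := exists_nat_gt _
  have hL0 : (0 : ℝ) < L := lt_trans (by positivity) hL
  have hLn : 1 ≤ L := by exact_mod_cast hL0
  have hLc : (L : ℂ) ≠ 0 := by exact_mod_cast hL0.ne'
  have hL2 : 2 / (L : ℝ) < (ε / 4) ^ 2 := by
    rw [div_lt_iff₀ hL0]
    rw [div_lt_iff₀ (by positivity)] at hL
    linarith
  -- the translates
  obtain ⟨F, hF⟩ : ∃ F : ℕ → ℕ → ℕ → ℂ, F = fun N l n => Gn a b f t N (((n + l * E : ℕ) : ℕ) : ℤ) :=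
    ⟨_, rfl⟩
  have hFn : ∀ N l n, ‖F N l n‖ = 1 := by
    intro N l n
    rw [hF]
    exact Gn_norm _ _ _ _ _ _
  have hF1 : ∀ l, Tendsto (fun N => av N (F N l)) atTop (𝓝 (mu t : ℂ)) := by
    intro l
    rw [hF]
    exact lim1 hS t (l * E)
  have hF2 : ∀ l l', Tendsto (fun N => av N (fun n => F N l n * conj (F N l' n))) atTop
      (𝓝 (if l = l' then 1 else ((mu t ^ 2 : ℝ) : ℂ))) := by
    intro l l'
    by_cases h : l = l'
    · rw [if_pos h, ← h, hF]
      exact lim0 t a b f (l * E)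
    · rw [if_neg h, hF]
      exact lim2 hS t (hsep l l' h)
  -- the second moment
  have hV : Tendsto (fun N : ℕ => (∑ n ∈ Icc 1 N, ‖((1 / (L : ℝ) : ℝ) : ℂ) * ∑ l ∈ range L, F N l n -
      ((mu t : ℝ) : ℂ)‖ ^ 2) / N) atTop (𝓝 ((1 - mu t ^ 2) / L)) := by
    have h1 : Tendsto (fun N : ℕ => (((1 / (L : ℝ) : ℝ) : ℂ) ^ 2 * ∑ l ∈ range L, ∑ l' ∈ range L,
        av N (fun n => F N l n * conj (F N l' n)) - 2 * ((mu t : ℝ) : ℂ) * ((1 / (L : ℝ) : ℝ) : ℂ) *
        ∑ l ∈ range L, av N (F N l) + ((mu t : ℝ) : ℂ) ^ 2).re) atTop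
        (𝓝 ((((1 / (L : ℝ) : ℝ) : ℂ) ^ 2 * ∑ l ∈ range L, ∑ l' ∈ range L,
        (if l = l' then 1 else ((mu t ^ 2 : ℝ) : ℂ)) - 2 * ((mu t : ℝ) : ℂ) * ((1 / (L : ℝ) : ℝ) : ℂ) *
        ∑ l ∈ range L, ((mu t : ℝ) : ℂ) + ((mu t : ℝ) : ℂ) ^ 2).re)) := by
      refine (Complex.continuous_re.tendsto _).comp ?_
      refine ((tendsto_const_nhds.mul (tendsto_finsetSum _ fun l _ => tendsto_finsetSum _ fun l' _ =>
        hF2 l l')).sub (tendsto_const_nhds.mul (tendsto_finsetSum _ fun l _ => hF1 l))).add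
        tendsto_const_nhds
    have h2 : ((((1 / (L : ℝ) : ℝ) : ℂ) ^ 2 * ∑ l ∈ range L, ∑ l' ∈ range L,
        (if l = l' then 1 else ((mu t ^ 2 : ℝ) : ℂ)) - 2 * ((mu t : ℝ) : ℂ) * ((1 / (L : ℝ) : ℝ) : ℂ) *
        ∑ l ∈ range L, ((mu t : ℝ) : ℂ) + ((mu t : ℝ) : ℂ) ^ 2).re) = (1 - mu t ^ 2) / L := by
      have h3 : ∀ l ∈ range L, ∑ l' ∈ range L, (if l = l' then (1 : ℂ) else ((mu t ^ 2 : ℝ) : ℂ)) =
          (1 - ((mu t ^ 2 : ℝ) : ℂ)) + L * ((mu t ^ 2 : ℝ) : ℂ) := by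
        intro l hl
        have h4 : ∀ l' ∈ range L, (if l = l' then (1 : ℂ) else ((mu t ^ 2 : ℝ) : ℂ)) =
            (if l = l' then (1 - ((mu t ^ 2 : ℝ) : ℂ)) else 0) + ((mu t ^ 2 : ℝ) : ℂ) := by
          intro l' _
          split_ifs <;> ring
        rw [sum_congr rfl h4, sum_add_distrib, sum_ite_eq, if_pos hl, sum_const, card_range,
          nsmul_eq_mul]
      rw [sum_congr rfl h3, sum_const, sum_const, card_range, nsmul_eq_mul, nsmul_eq_mul]
      have h5 : (((1 / (L : ℝ) : ℝ) : ℂ) ^ 2 * ((L : ℂ) * ((1 - ((mu t ^ 2 : ℝ) : ℂ)) +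
          L * ((mu t ^ 2 : ℝ) : ℂ))) - 2 * ((mu t : ℝ) : ℂ) * ((1 / (L : ℝ) : ℝ) : ℂ) *
          ((L : ℂ) * ((mu t : ℝ) : ℂ)) + ((mu t : ℝ) : ℂ) ^ 2) = (((1 - mu t ^ 2) / L : ℝ) : ℂ) := by
        push_cast
        field_simp
        ring
      rw [h5, Complex.ofReal_re]
    rw [h2] at h1
    refine h1.congr' ?_
    filter_upwards [eventually_ge_atTop 1] with N hN
    exact (second_moment (range L) (1 / (L : ℝ)) (mu t) (F N) hN).symm
  have hV2 : (1 - mu t ^ 2) / (L : ℝ) < 2 / L := by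
    rw [div_lt_div_iff_of_pos_right hL0]
    nlinarith
  -- the errors of the translations
  have hT : Tendsto (fun N : ℕ => 1 / (L : ℝ) * ∑ l ∈ range L,
      (2 * ((bad R (l * E) N : ℝ) / N) + 2 * (((l * E : ℕ) : ℝ) / N))) atTop (𝓝 0) := by
    have h1 : Tendsto (fun N : ℕ => 1 / (L : ℝ) * ∑ l ∈ range L,
        (2 * ((bad R (l * E) N : ℝ) / N) + 2 * (((l * E : ℕ) : ℝ) / N))) atTop
        (𝓝 (1 / (L : ℝ) * ∑ _l ∈ range L, (2 * (0 : ℝ) + 2 * 0))) := by
      refine tendsto_const_nhds.mul (tendsto_finsetSum _ fun l _ => ?_)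
      refine ((hnullE l).const_mul 2).add (Tendsto.const_mul 2 ?_)
      exact tendsto_const_nhds.div_atTop tendsto_natCast_atTop_atTop
    simpa using h1
  have hc' : Tendsto (fun N => ‖av N R - c‖) atTop (𝓝 0) := by
    have := (hc.sub_const c).norm
    rwa [sub_self, norm_zero] at this
  have hev := ((hV.eventually_lt_const (hV2.trans hL2)).and
    ((hT.eventually_lt_const (show (0 : ℝ) < ε / 4 by positivity)).and
    (hc'.eventually_lt_const (show (0 : ℝ) < ε / 4 by positivity)))).and (eventually_ge_atTop 1)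
  obtain ⟨N₀, hN₀⟩ := eventually_atTop.1 hev
  refine ⟨N₀, fun N hN => ?_⟩
  obtain ⟨⟨h1, h2, h3⟩, hN1⟩ := hN₀ N hN
  rw [dist_eq_norm]
  -- the average over the translates
  have e1 : ‖av N (fun n => R n * Gn a b f t N ((n : ℕ) : ℤ)) -
      ((1 / (L : ℝ) : ℝ) : ℂ) * ∑ l ∈ range L, av N (fun n => R n * F N l n)‖ < ε / 4 := by
    refine lt_of_le_of_lt ?_ h2
    have e2 : av N (fun n => R n * Gn a b f t N ((n : ℕ) : ℤ)) =
        ((1 / (L : ℝ) : ℝ) : ℂ) * ∑ _l ∈ range L, av N (fun n => R n * Gn a b f t N ((n : ℕ) : ℤ)) := by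
      rw [sum_const, card_range, nsmul_eq_mul]
      push_cast
      field_simp
    rw [e2, ← mul_sub, ← sum_sub_distrib, norm_mul, Complex.norm_real, Real.norm_eq_abs,
      abs_of_pos (by positivity)]
    refine mul_le_mul_of_nonneg_left ?_ (by positivity)
    refine (norm_sum_le _ _).trans (sum_le_sum fun l _ => ?_)
    have h4 := av_replace hR (G := fun n : ℕ => Gn a b f t N ((n : ℕ) : ℤ))
      (fun n => (Gn_norm _ _ _ _ _ _).le) N (l * E)
    rw [norm_sub_rev]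
    rw [hF]
    refine h4.trans (le_of_eq ?_)
    rw [mul_div_assoc, mul_div_assoc]
  have e3 : ((1 / (L : ℝ) : ℝ) : ℂ) * ∑ l ∈ range L, av N (fun n => R n * F N l n) =
      (mu t : ℂ) * av N R + av N (fun n => R n * (((1 / (L : ℝ) : ℝ) : ℂ) * ∑ l ∈ range L, F N l n -
      ((mu t : ℝ) : ℂ))) := by
    rw [← av_sum, ← av_mul, ← av_mul, ← av_add]
    congr 1
    funext n
    rw [← mul_sum]
    ring
  have e4 : ‖av N (fun n => R n * (((1 / (L : ℝ) : ℝ) : ℂ) * ∑ l ∈ range L, F N l n -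
      ((mu t : ℝ) : ℂ)))‖ < ε / 4 := by
    have h4 := av_cs (R := R) (Z := fun n => ((1 / (L : ℝ) : ℝ) : ℂ) * ∑ l ∈ range L, F N l n -
      ((mu t : ℝ) : ℂ)) hR N
    exact lt_of_pow_lt_pow_left₀ 2 (by positivity) (lt_of_le_of_lt h4 h1)
  have e5 : ‖(mu t : ℂ) * av N R - c * (mu t : ℂ)‖ < ε / 4 := by
    rw [mul_comm c, ← mul_sub, norm_mul, Complex.norm_real, Real.norm_eq_abs, abs_of_pos hμ0]
    refine lt_of_le_of_lt ?_ h3
    calc mu t * ‖av N R - c‖ ≤ 1 * ‖av N R - c‖ := mul_le_mul_of_nonneg_right hμ1 (norm_nonneg _)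
      _ = ‖av N R - c‖ := one_mul _
  rw [e3] at e1
  have e6 : av N (fun n => R n * Gn a b f t N ((n : ℕ) : ℤ)) - c * (mu t : ℂ) =
      (av N (fun n => R n * Gn a b f t N ((n : ℕ) : ℤ)) - ((mu t : ℂ) * av N R +
        av N (fun n => R n * (((1 / (L : ℝ) : ℝ) : ℂ) * ∑ l ∈ range L, F N l n - ((mu t : ℝ) : ℂ))))) +
      ((mu t : ℂ) * av N R - c * (mu t : ℂ)) +
      av N (fun n => R n * (((1 / (L : ℝ) : ℝ) : ℂ) * ∑ l ∈ range L, F N l n - ((mu t : ℝ) : ℂ))) := by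
    ring
  rw [e6]
  refine lt_of_le_of_lt (norm_add₃_le) ?_
  linarith

end Pool.Agent.K7.H69.EK
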